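import Mathlib

/-!
# Cesàro null sequences
-/

open Filter Topology

namespace Pool.Agent.Lib.MP_f2c841_an

/-- The Cesàro means of `u` tend to zero. -/
def CesaroZero (u : ℕ → ℝ) : Prop :=
  Tendsto (fun N : ℕ => (N : ℝ)⁻¹ * ∑ n ∈ Finset.range N, u n) atTop (𝓝 0)

theorem CesaroZero.mono {u v : ℕ → ℝ} (hv : CesaroZero v) (h0 : ∀ n, 0 ≤ u n)
    (h : ∀ n, u n ≤ v n) : CesaroZero u := by
  refine squeeze_zero (fun N => ?_) (fun N => ?_) hv
  · exact mul_nonneg (by positivity) (Finset.sum_nonneg fun n _ => h0 n)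
  · exact mul_le_mul_of_nonneg_left (Finset.sum_le_sum fun n _ => h n) (by positivity)

theorem CesaroZero.zero : CesaroZero fun _ => 0 := by
  simp [CesaroZero]

theorem CesaroZero.add {u v : ℕ → ℝ} (hu : CesaroZero u) (hv : CesaroZero v) :
    CesaroZero fun n => u n + v n := by
  have := Tendsto.add hu hv
  simp only [add_zero] at this
  refine this.congr fun N => ?_
  rw [Finset.sum_add_distrib, mul_add]

theorem CesaroZero.const_mul {u : ℕ → ℝ} (hu : CesaroZero u) (c : ℝ) :
    CesaroZero fun n => c * u n := by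
  have := Tendsto.const_mul c hu
  simp only [mul_zero] at this
  refine this.congr fun N => ?_
  rw [← Finset.mul_sum]
  ring

theorem CesaroZero.sum {ι : Type*} (s : Finset ι) {u : ι → ℕ → ℝ}
    (hu : ∀ i ∈ s, CesaroZero (u i)) : CesaroZero fun n => ∑ i ∈ s, u i n := by
  classical
  induction s using Finset.induction_on with
  | empty => simpa using CesaroZero.zero
  | insert a s ha ih =>
    simp_rw [Finset.sum_insert ha]
    exact (hu a (Finset.mem_insert_self a s)).add
      (ih fun i hi => hu i (Finset.mem_insert_of_mem hi))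

theorem cesaroZero_closure {E : Type*} [NormedAddCommGroup E] [NormedSpace ℂ E] (q : ℕ → E → ℝ)
    (C : ℝ) (hC : 0 ≤ C) (h0 : ∀ n f, 0 ≤ q n f) (hadd : ∀ n f g, q n (f + g) ≤ q n f + q n g)
    (hsmul : ∀ n (c : ℂ) f, q n (c • f) ≤ ‖c‖ * q n f) (hbd : ∀ n f, q n f ≤ C * ‖f‖)
    (S : Set E) (hS : ∀ f ∈ S, CesaroZero fun n => q n f) (f : E)
    (hf : f ∈ (Submodule.span ℂ S).topologicalClosure) : CesaroZero fun n => q n f := by
  have hspan : ∀ g ∈ Submodule.span ℂ S, CesaroZero fun n => q n g := by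
    intro g hg
    induction hg using Submodule.span_induction with
    | mem x hx => exact hS x hx
    | zero =>
      refine CesaroZero.zero.mono (fun n => h0 n _) fun n => ?_
      have := hbd n 0
      simpa using this
    | add x y _ _ hx hy => exact (hx.add hy).mono (fun n => h0 n _) fun n => hadd n x y
    | smul c x _ hx => exact (hx.const_mul ‖c‖).mono (fun n => h0 n _) fun n => hsmul n c x
  rw [← SetLike.mem_coe, Submodule.topologicalClosure_coe, Metric.mem_closure_iff] at hf
  unfold CesaroZero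
  rw [Metric.tendsto_atTop]
  intro ε hε
  obtain ⟨g, hg, hfg⟩ := hf (ε / (2 * (C + 1))) (by positivity)
  obtain ⟨N₀, hN₀⟩ := (Metric.tendsto_atTop.1 (hspan g hg)) (ε / 2) (by positivity)
  refine ⟨max N₀ 1, fun N hN => ?_⟩
  have hN1 : 1 ≤ N := (le_max_right _ _).trans hN
  have hNpos : (0 : ℝ) < N := by exact_mod_cast hN1
  have h1 := hN₀ N ((le_max_left _ _).trans hN)
  rw [Real.dist_eq, sub_zero] at h1 ⊢
  have h2 : ∀ n, q n f ≤ q n g + ε / 2 := by
    intro n
    have h3 := hadd n g (f - g)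
    rw [add_sub_cancel] at h3
    have h4 := hbd n (f - g)
    rw [dist_eq_norm] at hfg
    have h5 : C * ‖f - g‖ ≤ ε / 2 := by
      have h6 : C * ‖f - g‖ ≤ (C + 1) * (ε / (2 * (C + 1))) := by
        apply mul_le_mul (by linarith) hfg.le (norm_nonneg _) (by linarith)
      refine h6.trans (le_of_eq ?_)
      field_simp
    linarith
  have h3 : (N : ℝ)⁻¹ * ∑ n ∈ Finset.range N, q n f ≤
      (N : ℝ)⁻¹ * ∑ n ∈ Finset.range N, q n g + ε / 2 := by
    have h4 : ∑ n ∈ Finset.range N, q n f ≤ ∑ n ∈ Finset.range N, q n g + N * (ε / 2) := by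
      refine (Finset.sum_le_sum fun n _ => h2 n).trans ?_
      rw [Finset.sum_add_distrib, Finset.sum_const, Finset.card_range, nsmul_eq_mul]
    refine (mul_le_mul_of_nonneg_left h4 (by positivity)).trans (le_of_eq ?_)
    field_simp
  rw [abs_of_nonneg (mul_nonneg (by positivity) (Finset.sum_nonneg fun n _ => h0 n _))]
  have h5 := le_abs_self ((N : ℝ)⁻¹ * ∑ n ∈ Finset.range N, q n g)
  linarith

end Pool.Agent.Lib.MP_f2c841_an
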