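import Mathlib

/-!
# Characters on `T → ℝ` determine finite measures
-/

open MeasureTheory ProbabilityTheory Filter Topology Complex

namespace Pool.Agent.Lib.MP_f2c841_an

variable {T : Type*}

/-- The linear functional `x ↦ ∑ a t * x t`. -/
noncomputable def lin (a : T →₀ ℝ) (x : T → ℝ) : ℝ := Finsupp.linearCombination ℝ x a

theorem lin_add (a b : T →₀ ℝ) (x : T → ℝ) : lin (a + b) x = lin a x + lin b x := by
  simp [lin]

theorem lin_smul (c : ℝ) (a : T →₀ ℝ) (x : T → ℝ) : lin (c • a) x = c * lin a x := by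
  simp [lin]

theorem lin_neg (a : T →₀ ℝ) (x : T → ℝ) : lin (-a) x = - lin a x := by
  simp [lin]

theorem lin_single (t : T) (c : ℝ) (x : T → ℝ) : lin (Finsupp.single t c) x = c * x t := by
  simp [lin]

theorem lin_sum {ι : Type*} (s : Finset ι) (a : ι → T →₀ ℝ) (x : T → ℝ) :
    lin (∑ i ∈ s, a i) x = ∑ i ∈ s, lin (a i) x := by
  simp [lin, map_sum]

theorem measurable_lin (a : T →₀ ℝ) : Measurable (lin a) := by
  have : lin a = fun x => ∑ t ∈ a.support, a t * x t := by
    funext x
    simp [lin, Finsupp.linearCombination_apply, Finsupp.sum]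
  rw [this]
  fun_prop

/-- The character `x ↦ exp (i ∑ a t * x t)`. -/
noncomputable def chr (a : T →₀ ℝ) (x : T → ℝ) : ℂ := cexp (lin a x * I)

theorem measurable_chr (a : T →₀ ℝ) : Measurable (chr a) := by
  unfold chr
  have := measurable_lin a
  fun_prop

theorem norm_chr (a : T →₀ ℝ) (x : T → ℝ) : ‖chr a x‖ = 1 := by
  unfold chr
  exact Complex.norm_exp_ofReal_mul_I _

theorem chr_add (a b : T →₀ ℝ) (x : T → ℝ) : chr (a + b) x = chr a x * chr b x := by
  unfold chr
  rw [lin_add, ← Complex.exp_add]
  push_cast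
  ring_nf

theorem chr_neg (a : T →₀ ℝ) (x : T → ℝ) : chr (-a) x = (starRingEnd ℂ) (chr a x) := by
  unfold chr
  rw [lin_neg, ← Complex.exp_conj]
  simp

theorem integrable_chr (μ : Measure (T → ℝ)) [IsFiniteMeasure μ] (a : T →₀ ℝ) :
    Integrable (chr a) μ :=
  Integrable.of_bound (measurable_chr a).aestronglyMeasurable 1
    (Eventually.of_forall fun x => (norm_chr a x).le)

theorem ext_of_chr {μ ν : Measure (T → ℝ)} [IsFiniteMeasure μ] [IsFiniteMeasure ν]
    (h : ∀ a, ∫ x, chr a x ∂μ = ∫ x, chr a x ∂ν) : μ = ν := by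
  classical
  have key : ∀ I : Finset T, μ.map I.restrict = ν.map I.restrict := by
    intro I
    apply Measure.ext_of_charFunDual
    funext L
    rw [charFunDual_apply, charFunDual_apply]
    have hm : Measurable (fun x : T → ℝ => (I.restrict x : I → ℝ)) := by fun_prop
    have hL : ∀ x : T → ℝ, L (I.restrict x) =
        lin (∑ i : I, Finsupp.single (i : T) (L (Pi.single i 1))) x := by
      intro x
      rw [lin_sum]
      have := LinearMap.pi_apply_eq_sum_univ (L : (I → ℝ) →ₗ[ℝ] ℝ) (I.restrict x)
      simp only [ContinuousLinearMap.coe_coe] at this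
      rw [this]
      refine Finset.sum_congr rfl fun i _ => ?_
      rw [lin_single, smul_eq_mul, mul_comm]
      congr 2
      funext j
      simp [Pi.single_apply, eq_comm]
    rw [integral_map hm.aemeasurable (by fun_prop), integral_map hm.aemeasurable (by fun_prop)]
    simp_rw [hL]
    exact h _
  exact IsProjectiveLimit.unique (P := fun I => μ.map I.restrict) (fun I => rfl)
    (fun I => (key I).symm)

end Pool.Agent.Lib.MP_f2c841_an
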