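import Pool.Agent.Lib.MP_f2c841_an.Phi

/-!
# The four classes of numbers `2^n 3^k`
-/

open MeasureTheory ProbabilityTheory Filter Topology Complex

namespace Pool.Agent.Lib.MP_f2c841_an

/-- The base of a class. -/
def base (b : Bool) : ℕ := if b = true then 2 else 3

theorem two_le_base (b : Bool) : 2 ≤ base b := by
  unfold base; split_ifs <;> norm_num

/-- The exponents of a class. -/
def expo (κ : ℕ) (i : Bool) (j : ℕ) : ℕ := 3 * κ * (if i = true then 6 else 1) * 36 ^ j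

theorem expo_ge (κ : ℕ) (i : Bool) (j : ℕ) : 3 * (κ * (j + 1)) ≤ expo κ i j := by
  have h1 : j + 1 ≤ 36 ^ j := Nat.lt_pow_self (by norm_num)
  unfold expo
  split_ifs
  · nlinarith [Nat.zero_le κ, Nat.mul_le_mul_left (3 * κ) h1]
  · nlinarith [Nat.zero_le κ, Nat.mul_le_mul_left (3 * κ) h1]

theorem expo_succ (κ : ℕ) (i : Bool) (j : ℕ) : expo κ i (j + 1) = 36 * expo κ i j := by
  unfold expo
  rw [pow_succ]
  ring

/-- The weights of a class. -/
noncomputable def dd (κ : ℕ) (c : Bool × Bool) (j : ℕ) : ℝ := 1 / (base c.1 : ℝ) ^ expo κ c.2 j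

theorem rapid_dd {κ : ℕ} (hκ : 1 ≤ κ) (c : Bool × Bool) : Rapid (dd κ c) := by
  have hb : (2 : ℝ) ≤ base c.1 := by exact_mod_cast two_le_base c.1
  have hb0 : (0 : ℝ) < base c.1 := by linarith
  refine ⟨fun j => by unfold dd; positivity, fun j => ?_, ?_⟩
  · unfold dd
    rw [div_div, div_le_div_iff_of_pos_left one_pos (by positivity) (by positivity)]
    have h1 : expo κ c.2 j + 2 ≤ expo κ c.2 (j + 1) := by
      rw [expo_succ]
      have := expo_ge κ c.2 j
      have : 1 ≤ κ * (j + 1) := Nat.mul_pos hκ (by omega)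
      omega
    calc (base c.1 : ℝ) ^ expo κ c.2 j * 3 ≤ (base c.1 : ℝ) ^ expo κ c.2 j * (base c.1 : ℝ) ^ 2 := by
          apply mul_le_mul_of_nonneg_left _ (by positivity)
          nlinarith
      _ = (base c.1 : ℝ) ^ (expo κ c.2 j + 2) := by rw [pow_add]
      _ ≤ (base c.1 : ℝ) ^ expo κ c.2 (j + 1) := pow_le_pow_right₀ (by linarith) h1
  · unfold dd
    rw [div_le_div_iff_of_pos_left one_pos (by positivity) (by positivity)]
    have h1 : 2 ≤ expo κ c.2 0 := by
      have := expo_ge κ c.2 0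
      omega
    calc (3 : ℝ) ≤ (base c.1 : ℝ) ^ 2 := by nlinarith
      _ ≤ (base c.1 : ℝ) ^ expo κ c.2 0 := pow_le_pow_right₀ (by linarith) h1

theorem exists_class (κ m : ℕ) :
    ∃ i : Bool, ∀ j, expo κ i j ≤ m ∨ 6 * m ≤ expo κ i j := by
  by_contra hcon
  push Not at hcon
  obtain ⟨j, hj1, hj2⟩ := hcon false
  obtain ⟨l, hl1, hl2⟩ := hcon true
  simp only [expo, Bool.false_eq_true, if_false, if_true, mul_one] at hj1 hj2 hl1 hl2
  rcases le_or_gt j l with h | h
  · have h1 : 36 ^ j ≤ 36 ^ l := Nat.pow_le_pow_right (by norm_num) h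
    have h2 := Nat.mul_le_mul_left (3 * κ) h1
    nlinarith
  · have h1 : 36 ^ (l + 1) ≤ 36 ^ j := Nat.pow_le_pow_right (by norm_num) h
    have h2 := Nat.mul_le_mul_left (3 * κ) h1
    rw [pow_succ] at h2
    nlinarith

theorem weight_bound {κ : ℕ} (hκ : 1 ≤ κ) (c : Bool × Bool) (m s : ℕ)
    (hdvd : base c.1 ^ m ∣ s) (hs : s ≤ base c.1 ^ (3 * m))
    (hc : ∀ j, expo κ c.2 j ≤ m ∨ 6 * m ≤ expo κ c.2 j) (j : ℕ) :
    ‖ex (s * dd κ c j) - 1‖ ≤ 2 * Real.pi * ((1 / 2) ^ m * (1 / 2) ^ κ) * (1 / 2) ^ j := by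
  have hb2 := two_le_base c.1
  have hb : (2 : ℝ) ≤ base c.1 := by exact_mod_cast hb2
  have hb0 : (0 : ℝ) < base c.1 := by linarith
  have hpi := Real.pi_pos
  rcases hc j with h | h
  · have h1 : base c.1 ^ expo κ c.2 j ∣ s := (pow_dvd_pow _ h).trans hdvd
    obtain ⟨q, hq⟩ := h1
    have h2 : ex (s * dd κ c j) = 1 := by
      rw [ex_eq_one_iff]
      refine ⟨q, ?_⟩
      unfold dd
      rw [hq]
      push_cast
      field_simp
    rw [h2, sub_self, norm_zero]
    positivity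
  · refine (norm_ex_sub_one_le _).trans ?_
    rw [mul_assoc (2 * Real.pi)]
    refine mul_le_mul_of_nonneg_left ?_ (by positivity)
    have hdd : 0 < dd κ c j := (rapid_dd hκ c).pos j
    rw [abs_of_nonneg (by positivity)]
    have h1 : 3 * m + (m + κ + j) ≤ expo κ c.2 j := by
      have h2 := expo_ge κ c.2 j
      have h3 : κ + j ≤ κ * (j + 1) := by nlinarith [Nat.mul_le_mul_right j hκ]
      omega
    have h2 : (s : ℝ) ≤ (base c.1 : ℝ) ^ (3 * m) := by exact_mod_cast hs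
    calc (s : ℝ) * dd κ c j ≤ (base c.1 : ℝ) ^ (3 * m) * dd κ c j :=
          mul_le_mul_of_nonneg_right h2 hdd.le
      _ ≤ 1 / (base c.1 : ℝ) ^ (m + κ + j) := by
          unfold dd
          rw [mul_one_div, div_le_div_iff₀ (by positivity) (by positivity), one_mul, ← pow_add]
          exact pow_le_pow_right₀ (by linarith) h1
      _ ≤ 1 / (2 : ℝ) ^ (m + κ + j) := by
          apply one_div_le_one_div_of_le (by positivity)
          exact pow_le_pow_left₀ (by norm_num) hb _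
      _ = (1 / 2) ^ m * (1 / 2) ^ κ * (1 / 2) ^ j := by
          rw [← pow_add, ← pow_add, one_div_pow]

theorem class_error {κ : ℕ} (hκ : 1 ≤ κ) (n k : ℕ) :
    ∃ c : Bool × Bool, ∀ ξ, ‖ex (((2 ^ n * 3 ^ k : ℕ) : ℝ) * Phi (dd κ c) ξ) - 1‖ ≤
      4 * Real.pi * ((1 / 2) ^ max n k * (1 / 2) ^ κ) := by
  have main : ∀ (b : Bool) (m : ℕ), base b ^ m ∣ 2 ^ n * 3 ^ k →
      2 ^ n * 3 ^ k ≤ base b ^ (3 * m) → ∃ c : Bool × Bool, ∀ ξ,
      ‖ex (((2 ^ n * 3 ^ k : ℕ) : ℝ) * Phi (dd κ c) ξ) - 1‖ ≤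
      4 * Real.pi * ((1 / 2) ^ m * (1 / 2) ^ κ) := by
    intro b m h1 h2
    obtain ⟨i, hi⟩ := exists_class κ m
    refine ⟨(b, i), fun ξ => ?_⟩
    have hs : Summable fun j : ℕ =>
        2 * Real.pi * ((1 / 2) ^ m * (1 / 2) ^ κ) * (1 / 2 : ℝ) ^ j :=
      (summable_geometric_of_lt_one (by norm_num) (by norm_num)).mul_left _
    refine (ex_Phi (rapid_dd hκ (b, i)) _ _ hs
      (fun j => weight_bound hκ (b, i) m _ h1 h2 hi j) ξ).trans (le_of_eq ?_)
    rw [tsum_mul_left, tsum_geometric_of_lt_one (by norm_num) (by norm_num)]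
    ring
  rcases le_total k n with h | h
  · rw [max_eq_left h]
    refine main true n (Dvd.intro _ rfl) ?_
    have h1 : 3 ^ k ≤ 4 ^ n := (Nat.pow_le_pow_right (by norm_num) h).trans
      (Nat.pow_le_pow_left (by norm_num) n)
    calc 2 ^ n * 3 ^ k ≤ 2 ^ n * 4 ^ n := Nat.mul_le_mul_left _ h1
      _ = base true ^ (3 * n) := by
        unfold base
        rw [if_pos rfl, show (4 : ℕ) = 2 ^ 2 by norm_num, ← pow_mul, ← pow_add]
        congr 1
        ring
  · rw [max_eq_right h]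
    refine main false k (Dvd.intro_left _ rfl) ?_
    have h1 : 2 ^ n ≤ 9 ^ k := (Nat.pow_le_pow_right (by norm_num) h).trans
      (Nat.pow_le_pow_left (by norm_num) k)
    calc 2 ^ n * 3 ^ k ≤ 9 ^ k * 3 ^ k := Nat.mul_le_mul_right _ h1
      _ = base false ^ (3 * k) := by
        unfold base
        rw [if_neg (by simp), show (9 : ℕ) = 3 ^ 2 by norm_num, ← pow_mul, ← pow_add]
        congr 1
        ring

end Pool.Agent.Lib.MP_f2c841_an
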