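import Pool.Agent.Lib.MP_f2c841_an.Chr

/-!
# Characters span a dense subspace of `L²`
-/

open MeasureTheory ProbabilityTheory Filter Topology Complex

namespace Pool.Agent.Lib.MP_f2c841_an

variable {T : Type*} (μ : Measure (T → ℝ)) [IsProbabilityMeasure μ]

theorem ae_zero_of_real (u : (T → ℝ) → ℝ) (hu : Integrable u μ)
    (h : ∀ a, ∫ x, chr a x * (u x : ℂ) ∂μ = 0) : u =ᵐ[μ] 0 := by
  have hup : AEMeasurable (fun x => ENNReal.ofReal (u x)) μ := hu.aemeasurable.ennreal_ofReal
  have hun : AEMeasurable (fun x => ENNReal.ofReal (-u x)) μ := hu.neg.aemeasurable.ennreal_ofReal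
  have : IsFiniteMeasure (μ.withDensity fun x => ENNReal.ofReal (u x)) :=
    isFiniteMeasure_withDensity_ofReal hu.2
  have : IsFiniteMeasure (μ.withDensity fun x => ENNReal.ofReal (-u x)) :=
    isFiniteMeasure_withDensity_ofReal hu.neg.2
  have key : (μ.withDensity fun x => ENNReal.ofReal (u x)) =
      μ.withDensity fun x => ENNReal.ofReal (-u x) := by
    apply ext_of_chr
    intro a
    rw [integral_withDensity_eq_integral_toReal_smul₀ hup
        (Eventually.of_forall fun x => ENNReal.ofReal_lt_top),
      integral_withDensity_eq_integral_toReal_smul₀ hun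
        (Eventually.of_forall fun x => ENNReal.ofReal_lt_top), ← sub_eq_zero]
    have i1 : Integrable (fun x => (ENNReal.ofReal (u x)).toReal • chr a x) μ := by
      have h1 : Integrable (fun x => max (u x) 0) μ := hu.pos_part
      refine (h1.mono' (g := fun x => max (u x) 0) ?_ ?_)
      · exact (hup.ennreal_toReal.smul (measurable_chr a).aemeasurable).aestronglyMeasurable
      · refine Eventually.of_forall fun x => ?_
        rw [norm_smul, norm_chr, mul_one, ENNReal.toReal_ofReal', Real.norm_eq_abs,
          abs_of_nonneg (le_max_right _ _)]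
    have i2 : Integrable (fun x => (ENNReal.ofReal (-u x)).toReal • chr a x) μ := by
      have h1 : Integrable (fun x => max (-u x) 0) μ := hu.neg_part
      refine (h1.mono' (g := fun x => max (-u x) 0) ?_ ?_)
      · exact (hun.ennreal_toReal.smul (measurable_chr a).aemeasurable).aestronglyMeasurable
      · refine Eventually.of_forall fun x => ?_
        rw [norm_smul, norm_chr, mul_one, ENNReal.toReal_ofReal', Real.norm_eq_abs,
          abs_of_nonneg (le_max_right _ _)]
    rw [← integral_sub i1 i2, ← h a]
    refine integral_congr_ae (Eventually.of_forall fun x => ?_)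
    simp only
    rw [← sub_smul, ENNReal.toReal_ofReal', ENNReal.toReal_ofReal', Complex.real_smul, mul_comm]
    congr 2
    rcases le_total 0 (u x) with h0 | h0
    · rw [max_eq_left h0, max_eq_right (by linarith)]; ring
    · rw [max_eq_right h0, max_eq_left (by linarith)]; ring
  have h3 := (withDensity_eq_iff_of_sigmaFinite hup hun).1 key
  filter_upwards [h3] with x hx
  simp only [Pi.zero_apply]
  have h4 := congrArg ENNReal.toReal hx
  rw [ENNReal.toReal_ofReal', ENNReal.toReal_ofReal'] at h4
  rcases le_total 0 (u x) with h0 | h0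
  · rw [max_eq_left h0, max_eq_right (by linarith)] at h4; exact h4
  · rw [max_eq_right h0, max_eq_left (by linarith)] at h4; linarith

theorem memLp_chr (a : T →₀ ℝ) : MemLp (chr a) 2 μ :=
  MemLp.of_bound (measurable_chr a).aestronglyMeasurable 1
    (Eventually.of_forall fun x => (norm_chr a x).le)

/-- The character as an element of `L²`. -/
noncomputable def chrL (a : T →₀ ℝ) : Lp ℂ 2 μ := (memLp_chr μ a).toLp

theorem dense_span_chr :
    (Submodule.span ℂ (Set.range (chrL μ))).topologicalClosure = ⊤ := by
  rw [Submodule.topologicalClosure_eq_top_iff, Submodule.eq_bot_iff]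
  intro f hf
  have h0 : ∀ a, ∫ x, chr a x * f x ∂μ = 0 := by
    intro a
    have h1 : inner ℂ (chrL μ (-a)) f = 0 :=
      (Submodule.mem_orthogonal _ _).1 hf _ (Submodule.subset_span ⟨-a, rfl⟩)
    rw [L2.inner_def] at h1
    rw [← h1]
    refine integral_congr_ae ?_
    filter_upwards [(memLp_chr μ (-a)).coeFn_toLp] with x hx
    rw [chrL, hx, RCLike.inner_apply, chr_neg]
    simp [mul_comm]
  have hint : Integrable f μ := (Lp.memLp f).integrable (by norm_num)
  have h1 : ∀ a, ∫ x, chr a x * (starRingEnd ℂ) (f x) ∂μ = 0 := by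
    intro a
    have h2 := congrArg (starRingEnd ℂ) (h0 (-a))
    rw [← integral_conj, map_zero] at h2
    rw [← h2]
    refine integral_congr_ae (Eventually.of_forall fun x => ?_)
    simp [chr_neg]
  have i1 : ∀ a, Integrable (fun x => chr a x * f x) μ := fun a =>
    hint.bdd_mul (measurable_chr a).aestronglyMeasurable
      (Eventually.of_forall fun x => (norm_chr a x).le)
  have hconj : Integrable (fun x => (starRingEnd ℂ) (f x)) μ := by
    have := Complex.conjCLE.toContinuousLinearMap.integrable_comp hint
    simpa using this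
  have i2 : ∀ a, Integrable (fun x => chr a x * (starRingEnd ℂ) (f x)) μ := fun a =>
    hconj.bdd_mul (measurable_chr a).aestronglyMeasurable
      (Eventually.of_forall fun x => (norm_chr a x).le)
  have hre : (fun x => (f x).re) =ᵐ[μ] 0 := by
    refine ae_zero_of_real μ _ hint.re fun a => ?_
    have h3 : ∀ x, chr a x * (((f x).re : ℝ) : ℂ) =
        (1 / 2 : ℂ) * (chr a x * f x + chr a x * (starRingEnd ℂ) (f x)) := by
      intro x
      rw [← mul_add, Complex.add_conj]
      push_cast
      ring
    simp_rw [h3]
    rw [integral_const_mul, integral_add (i1 a) (i2 a), h0 a, h1 a]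
    simp
  have him : (fun x => (f x).im) =ᵐ[μ] 0 := by
    refine ae_zero_of_real μ _ hint.im fun a => ?_
    have h3 : ∀ x, chr a x * (((f x).im : ℝ) : ℂ) =
        (1 / (2 * I) : ℂ) * (chr a x * f x - chr a x * (starRingEnd ℂ) (f x)) := by
      intro x
      rw [← mul_sub, Complex.sub_conj]
      push_cast
      field_simp
    simp_rw [h3]
    rw [integral_const_mul, integral_sub (i1 a) (i2 a), h0 a, h1 a]
    simp
  rw [Lp.eq_zero_iff_ae_eq_zero]
  filter_upwards [hre, him] with x h1 h2
  exact Complex.ext h1 h2

end Pool.Agent.Lib.MP_f2c841_an
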