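import Pool.Agent.Lib.MP_f2c841_an.Chr

/-!
# Gaussian measures on `T → ℝ` with a prescribed Gram kernel
-/

open MeasureTheory ProbabilityTheory Filter Topology Complex InnerProductSpace

namespace Pool.Agent.Lib.MP_f2c841_an

variable {H : Type*} [NormedAddCommGroup H] [InnerProductSpace ℝ H]

theorem gsn_inner (h : ℕ → H) {i j : ℕ} (hij : i ≠ j) :
    ⟪gramSchmidtNormed ℝ h i, gramSchmidtNormed ℝ h j⟫_ℝ = 0 := by
  unfold gramSchmidtNormed
  rw [inner_smul_left, inner_smul_right, gramSchmidt_orthogonal ℝ h hij]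
  simp

theorem gsn_inner_smul (h : ℕ → H) (j : ℕ) :
    ⟪gramSchmidtNormed ℝ h j, gramSchmidtNormed ℝ h j⟫_ℝ • gramSchmidtNormed ℝ h j =
      gramSchmidtNormed ℝ h j := by
  by_cases hz : gramSchmidtNormed ℝ h j = 0
  · rw [hz]; simp
  · rw [real_inner_self_eq_norm_sq, gramSchmidtNormed_unit_length' hz]
    simp

theorem gsn_expand (h : ℕ → H) (N : ℕ) (v : H)
    (hv : v ∈ Submodule.span ℝ (gramSchmidtNormed ℝ h '' Set.Iio N)) :
    ∑ i ∈ Finset.range N, ⟪gramSchmidtNormed ℝ h i, v⟫_ℝ • gramSchmidtNormed ℝ h i = v := by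
  induction hv using Submodule.span_induction with
  | mem x hx =>
    obtain ⟨j, hj, rfl⟩ := hx
    rw [Finset.sum_eq_single j]
    · exact gsn_inner_smul h j
    · intro i _ hij
      rw [gsn_inner h hij, zero_smul]
    · intro hj'
      exact absurd (Finset.mem_range.2 hj) hj'
  | zero => simp
  | add x y _ _ hx hy =>
    rw [← hx, ← hy]
    conv_rhs => rw [hx, hy]
    simp_rw [hx, hy, inner_add_right, add_smul]
    rw [Finset.sum_add_distrib, hx, hy]
  | smul c x _ hx =>
    simp_rw [inner_smul_right, mul_smul]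
    rw [← Finset.smul_sum, hx]

theorem gsn_norm_sq (h : ℕ → H) (N : ℕ) (v : H)
    (hv : v ∈ Submodule.span ℝ (gramSchmidtNormed ℝ h '' Set.Iio N)) :
    ‖v‖ ^ 2 = ∑ i ∈ Finset.range N, ⟪gramSchmidtNormed ℝ h i, v⟫_ℝ ^ 2 := by
  rw [← real_inner_self_eq_norm_sq]
  conv_lhs => rw [← gsn_expand h N v hv]
  rw [sum_inner]
  refine Finset.sum_congr rfl fun i _ => ?_
  rw [gsn_expand h N v hv, inner_smul_left]
  simp [sq]

theorem mem_span_gsn (h : ℕ → H) {n N : ℕ} (hn : n < N) :
    h n ∈ Submodule.span ℝ (gramSchmidtNormed ℝ h '' Set.Iio N) := by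
  rw [span_gramSchmidtNormed]
  have := mem_span_gramSchmidt ℝ h (le_refl n)
  refine Submodule.span_mono (Set.image_mono ?_) this
  intro i hi
  exact lt_of_le_of_lt hi hn

theorem integral_exp_gauss (N : ℕ) (b : ℕ → ℝ) :
    ∫ x, cexp (((∑ i ∈ Finset.range N, b i * x i : ℝ) : ℂ) * I)
      ∂(Measure.infinitePi fun _ : ℕ => gaussianReal 0 1) =
    cexp (-((∑ i ∈ Finset.range N, b i ^ 2 : ℝ) : ℂ) / 2) := by
  have h1 : ∀ x : ℕ → ℝ, cexp (((∑ i ∈ Finset.range N, b i * x i : ℝ) : ℂ) * I) =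
      (fun y : (Finset.range N) → ℝ => ∏ i : Finset.range N, cexp (((b i * y i : ℝ) : ℂ) * I))
        ((Finset.range N).restrict x) := by
    intro x
    simp only [Finset.restrict]
    rw [← Complex.exp_sum, ← Finset.sum_mul, ← Complex.ofReal_sum]
    congr 3
    exact (Finset.sum_coe_sort (Finset.range N) (fun i => b i * x i)).symm
  simp_rw [h1]
  have h3 := integral_restrict_infinitePi (μ := fun _ : ℕ => gaussianReal 0 1)
    (s := Finset.range N)
    (f := fun y : (Finset.range N) → ℝ => ∏ i : Finset.range N, cexp (((b i * y i : ℝ) : ℂ) * I))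
    (Measurable.aestronglyMeasurable (Finset.measurable_prod _ fun i _ => by fun_prop))
  refine h3.trans ?_
  rw [integral_fintype_prod_eq_prod
    (f := fun (i : Finset.range N) (y : ℝ) => cexp (((b i * y : ℝ) : ℂ) * I))]
  have h2 : ∀ i : Finset.range N, ∫ y, cexp (((b i * y : ℝ) : ℂ) * I) ∂(gaussianReal 0 1) =
      cexp (-((b i ^ 2 : ℝ) : ℂ) / 2) := by
    intro i
    have := charFun_gaussianReal (μ := 0) (v := 1) (b i)
    rw [charFun_apply_real] at this
    simp only [ofReal_mul] at this ⊢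
    rw [this]
    congr 1
    push_cast
    ring
  rw [Finset.prod_congr rfl fun i _ => h2 i, ← Complex.exp_sum]
  congr 1
  rw [Finset.sum_coe_sort (Finset.range N) (fun i => -((b i ^ 2 : ℝ) : ℂ) / 2)]
  push_cast
  rw [← Finset.sum_div, Finset.sum_neg_distrib]

theorem exists_gaussian_nat (h : ℕ → H) : ∃ μ : Measure (ℕ → ℝ), IsProbabilityMeasure μ ∧
    ∀ a : ℕ →₀ ℝ, ∫ x, chr a x ∂μ =
      cexp (-((‖Finsupp.linearCombination ℝ h a‖ ^ 2 : ℝ) : ℂ) / 2) := by
  set e := gramSchmidtNormed ℝ h with he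
  set X : (ℕ → ℝ) → ℕ → ℝ := fun x n => ∑ i ∈ Finset.range (n + 1), ⟪e i, h n⟫_ℝ * x i with hX
  have hXm : Measurable X := by
    rw [hX]
    fun_prop
  refine ⟨(Measure.infinitePi fun _ : ℕ => gaussianReal 0 1).map X,
    Measure.isProbabilityMeasure_map hXm.aemeasurable, fun a => ?_⟩
  rw [integral_map hXm.aemeasurable (measurable_chr a).aestronglyMeasurable]
  obtain ⟨N, hN⟩ : ∃ N, ∀ n ∈ a.support, n < N :=
    ⟨a.support.sup id + 1, fun n hn => Nat.lt_succ_of_le (Finset.le_sup (f := id) hn)⟩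
  have hext : ∀ n, n < N → ∀ x, X x n = ∑ i ∈ Finset.range N, ⟪e i, h n⟫_ℝ * x i := by
    intro n hn x
    refine Finset.sum_subset (fun i hi => Finset.mem_range.2
      (lt_of_lt_of_le (Finset.mem_range.1 hi) hn)) fun i _ hi => ?_
    have hni : n < i := by
      by_contra hcon
      exact hi (Finset.mem_range.2 (by omega))
    have h0 : ⟪e i, h n⟫_ℝ = 0 := by
      rw [he]
      unfold gramSchmidtNormed
      rw [inner_smul_left, gramSchmidt_inv_triangular ℝ h hni]
      simp
    rw [h0, zero_mul]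
  set v := Finsupp.linearCombination ℝ h a with hv
  have hvs : v ∈ Submodule.span ℝ (e '' Set.Iio N) := by
    rw [hv, Finsupp.linearCombination_apply, Finsupp.sum]
    exact Submodule.sum_mem _ fun n hn => Submodule.smul_mem _ _ (mem_span_gsn h (hN n hn))
  have hlin : ∀ x, lin a (X x) = ∑ i ∈ Finset.range N, ⟪e i, v⟫_ℝ * x i := by
    intro x
    unfold lin
    rw [Finsupp.linearCombination_apply, Finsupp.sum]
    have h1 : ∀ n ∈ a.support, a n • X x n =
        ∑ i ∈ Finset.range N, a n * ⟪e i, h n⟫_ℝ * x i := by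
      intro n hn
      rw [hext n (hN n hn), smul_eq_mul, Finset.mul_sum]
      exact Finset.sum_congr rfl fun i _ => by ring
    rw [Finset.sum_congr rfl h1, Finset.sum_comm]
    refine Finset.sum_congr rfl fun i _ => ?_
    rw [hv, Finsupp.linearCombination_apply, Finsupp.sum, inner_sum, Finset.sum_mul]
    exact Finset.sum_congr rfl fun n _ => by rw [inner_smul_right]
  have hchr : ∀ x, chr a (X x) =
      cexp (((∑ i ∈ Finset.range N, ⟪e i, v⟫_ℝ * x i : ℝ) : ℂ) * I) := by
    intro x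
    unfold chr
    rw [hlin]
  simp_rw [hchr]
  rw [integral_exp_gauss, ← gsn_norm_sq h N v hvs]

theorem exists_gaussian {T : Type*} [Encodable T] (h : T → H) :
    ∃ μ : Measure (T → ℝ), IsProbabilityMeasure μ ∧
      ∀ a : T →₀ ℝ, ∫ x, chr a x ∂μ =
        cexp (-((‖Finsupp.linearCombination ℝ h a‖ ^ 2 : ℝ) : ℂ) / 2) := by
  obtain ⟨ν, hν, hchr⟩ := exists_gaussian_nat
    (fun n : ℕ => ((Encodable.decode (α := T) n).elim 0 h : H))
  have hm : Measurable (fun (x : ℕ → ℝ) (t : T) => x (Encodable.encode t)) := by fun_prop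
  refine ⟨ν.map (fun x t => x (Encodable.encode t)),
    Measure.isProbabilityMeasure_map hm.aemeasurable, fun a => ?_⟩
  rw [integral_map hm.aemeasurable (measurable_chr a).aestronglyMeasurable]
  have h1 : ∀ x : ℕ → ℝ, chr a (fun t => x (Encodable.encode t)) =
      chr (a.mapDomain Encodable.encode) x := by
    intro x
    unfold chr lin
    rw [Finsupp.linearCombination_mapDomain]
    rfl
  simp_rw [h1]
  rw [hchr, Finsupp.linearCombination_mapDomain]
  congr 5
  simp [Function.comp_def]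

end Pool.Agent.Lib.MP_f2c841_an
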