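import Pool.Agent.Lib.MP_f2c841_an.Spec
import Pool.Agent.Lib.MP_f2c841_an.Gauss

/-!
# The non-recurrent set
-/

open MeasureTheory ProbabilityTheory Filter Topology Complex

namespace Pool.Agent.Lib.MP_f2c841_an

/-! ### One-dimensional marginals -/

theorem law_lin {T : Type*} {H : Type*} [NormedAddCommGroup H] [InnerProductSpace ℝ H]
    {μ : Measure (T → ℝ)} [IsProbabilityMeasure μ] {h : T → H} (hμ : IsGauss μ h) (a : T →₀ ℝ) :
    μ.map (lin a) = gaussianReal 0 (‖Finsupp.linearCombination ℝ h a‖₊ ^ 2) := by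
  have : IsProbabilityMeasure (μ.map (lin a)) :=
    Measure.isProbabilityMeasure_map (measurable_lin a).aemeasurable
  apply Measure.ext_of_charFun
  funext t
  rw [charFun_apply_real, charFun_gaussianReal, integral_map (measurable_lin a).aemeasurable
    (by fun_prop)]
  have h1 : ∀ x, cexp (t * (lin a x : ℝ) * I) = chr (t • a) x := by
    intro x
    unfold chr
    rw [lin_smul]
    push_cast
    ring_nf
  simp_rw [h1]
  rw [hμ, map_smul, norm_smul]
  congr 1
  simp only [NNReal.coe_pow, coe_nnnorm, Real.norm_eq_abs]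
  rw [mul_pow, sq_abs]
  push_cast
  ring

theorem tail_lin {T : Type*} {H : Type*} [NormedAddCommGroup H] [InnerProductSpace ℝ H]
    {μ : Measure (T → ℝ)} [IsProbabilityMeasure μ] {h : T → H} (hμ : IsGauss μ h) (a : T →₀ ℝ)
    {c : ℝ} (hc : 0 < c) :
    μ {x | c ≤ |lin a x|} ≤ ENNReal.ofReal (‖Finsupp.linearCombination ℝ h a‖ ^ 2 / c ^ 2) := by
  have hm := measurable_lin a
  have hs : MeasurableSet {y : ℝ | c ≤ |y|} :=
    measurableSet_le measurable_const (measurable_id.abs)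
  have h1 : μ {x | c ≤ |lin a x|} = (μ.map (lin a)) {y | c ≤ |y|} := by
    rw [Measure.map_apply hm hs]
    rfl
  rw [h1, law_lin hμ a]
  have h2 := meas_ge_le_variance_div_sq (μ := gaussianReal 0
    (‖Finsupp.linearCombination ℝ h a‖₊ ^ 2)) (memLp_id_gaussianReal 2) hc
  rw [variance_id_gaussianReal] at h2
  simpa using h2

/-! ### The law at time zero -/

/-- The standard Gaussian measure on `ℝ^8`. -/
noncomputable def std : Measure ((Bool × Bool) × Bool → ℝ) :=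
  Measure.pi fun _ => gaussianReal 0 1

instance : IsProbabilityMeasure std := by unfold std; infer_instance

theorem integral_chr_std (b : ((Bool × Bool) × Bool) →₀ ℝ) :
    ∫ x, chr b x ∂std = cexp (-((∑ a, b a ^ 2 : ℝ) : ℂ) / 2) := by
  have h1 : ∀ x, chr b x = ∏ a, cexp (((b a * x a : ℝ) : ℂ) * I) := by
    intro x
    unfold chr lin
    rw [Finsupp.linearCombination_apply, Finsupp.sum_fintype _ _ (by simp), ← Complex.exp_sum,
      ← Finset.sum_mul, ← Complex.ofReal_sum]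
    rfl
  simp_rw [h1]
  unfold std
  rw [integral_fintype_prod_eq_prod
    (f := fun (a : (Bool × Bool) × Bool) (y : ℝ) => cexp (((b a * y : ℝ) : ℂ) * I))]
  have h2 : ∀ a : (Bool × Bool) × Bool, ∫ y, cexp (((b a * y : ℝ) : ℂ) * I)
      ∂(gaussianReal 0 1) = cexp (-((b a ^ 2 : ℝ) : ℂ) / 2) := by
    intro a
    have := charFun_gaussianReal (μ := 0) (v := 1) (b a)
    rw [charFun_apply_real] at this
    simp only [ofReal_mul] at this ⊢
    rw [this]
    congr 1
    push_cast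
    ring
  rw [Finset.prod_congr rfl fun i _ => h2 i, ← Complex.exp_sum]
  congr 1
  push_cast
  rw [← Finset.sum_div, Finset.sum_neg_distrib]

theorem law_zero {κ : ℕ} (hκ : 1 ≤ κ) {μ : Measure (TT → ℝ)} [IsProbabilityMeasure μ]
    (hμ : IsGauss μ (hvec hκ)) : μ.map (fun x a => x (0, a)) = std := by
  have hm : Measurable (fun (x : TT → ℝ) (a : (Bool × Bool) × Bool) => x (0, a)) := by fun_prop
  have : IsProbabilityMeasure (μ.map (fun (x : TT → ℝ) (a : (Bool × Bool) × Bool) => x (0, a))) :=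
    Measure.isProbabilityMeasure_map hm.aemeasurable
  apply ext_of_chr
  intro b
  rw [integral_map hm.aemeasurable (measurable_chr b).aestronglyMeasurable, integral_chr_std]
  have h1 : ∀ x : TT → ℝ, chr b (fun a => x (0, a)) = chr (b.mapDomain fun a => (0, a)) x := by
    intro x
    unfold chr lin
    rw [Finsupp.linearCombination_mapDomain]
    rfl
  simp_rw [h1]
  rw [hμ, Finsupp.linearCombination_mapDomain]
  congr 3
  rw [← real_inner_self_eq_norm_sq, inner_lc]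
  simp only [Function.comp_apply, inner_hvec_zero]
  have h2 : ∀ s ∈ b.support, ∑ t ∈ b.support, b s * b t * (if s = t then (1 : ℝ) else 0) =
      b s ^ 2 := by
    intro s hs
    simp [hs, sq]
  rw [Finset.sum_congr rfl h2]
  push_cast
  exact Finset.sum_subset (Finset.subset_univ _) fun a _ ha => by
    simp [Finsupp.notMem_support_iff.1 ha]

/-- The target box. -/
def box : Set ((Bool × Bool) × Bool → ℝ) :=
  Set.pi Set.univ fun a => if a.2 = true then Set.Ioo (-(1 / 8)) (1 / 8) else Set.Ioo (7 / 8) (9 / 8)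

theorem measurableSet_box : MeasurableSet box := by
  refine MeasurableSet.univ_pi fun a => ?_
  split_ifs
  · exact measurableSet_Ioo
  · exact measurableSet_Ioo

theorem box_pos : 0 < std box := by
  unfold std box
  rw [Measure.pi_pi]
  rw [pos_iff_ne_zero, Finset.prod_ne_zero_iff]
  intro a _ h0
  have h1 : (volume : Measure ℝ) (if a.2 = true then Set.Ioo (-(1 / 8)) (1 / 8)
      else Set.Ioo (7 / 8) (9 / 8)) = 0 :=
    gaussianReal_absolutelyContinuous' 0 one_ne_zero h0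
  split_ifs at h1
  · rw [Real.volume_Ioo] at h1
    norm_num at h1
  · rw [Real.volume_Ioo] at h1
    norm_num at h1

/-! ### Near rotation -/

/-- The angle `2 π s / 5`. -/
noncomputable def ang (s : ℕ) : ℝ := 2 * Real.pi * (s / 5)

/-- The functional comparing the class `c` coordinate at time `s` with the rotated value at
time zero. -/
noncomputable def fn (s : ℕ) (c : Bool × Bool) : TT →₀ ℝ :=
  Finsupp.single ((s : ℤ), (c, false)) 1 - Real.cos (ang s) • Finsupp.single (0, (c, false)) 1 -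
    Real.sin (ang s) • Finsupp.single (0, (c, true)) 1

theorem lin_fn (s : ℕ) (c : Bool × Bool) (x : TT → ℝ) :
    lin (fn s c) x = x ((s : ℤ), (c, false)) - Real.cos (ang s) * x (0, (c, false)) -
      Real.sin (ang s) * x (0, (c, true)) := by
  unfold fn
  rw [sub_eq_add_neg, sub_eq_add_neg, lin_add, lin_add, lin_neg, lin_neg, lin_smul, lin_smul,
    lin_single, lin_single, lin_single]
  ring

/-- The total mass constant. -/
noncomputable def MM : ℝ := (measureUnivNNReal nu : ℝ) ^ (2 : ENNReal).toReal⁻¹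

theorem norm_fn {κ : ℕ} (hκ : 1 ≤ κ) (s : ℕ) (c : Bool × Bool) (D : ℝ) (hD : 0 ≤ D)
    (h : ∀ ξ, ‖ex ((s : ℝ) * Phi (dd κ c) ξ) - 1‖ ≤ D) :
    ‖Finsupp.linearCombination ℝ (hvec hκ) (fn s c)‖ ≤ MM * D := by
  have h1 : Finsupp.linearCombination ℝ (hvec hκ) (fn s c) =
      hvec hκ ((s : ℤ), (c, false)) - Real.cos (ang s) • hvec hκ (0, (c, false)) -
        Real.sin (ang s) • hvec hκ (0, (c, true)) := by
    simp [fn]
  rw [h1]
  unfold MM
  refine Lp.norm_le_of_ae_bound hD ?_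
  filter_upwards [(memLp_vec hκ ((s : ℤ), (c, false))).coeFn_toLp,
    (memLp_vec hκ (0, (c, false))).coeFn_toLp, (memLp_vec hκ (0, (c, true))).coeFn_toLp,
    Lp.coeFn_sub (hvec hκ ((s : ℤ), (c, false)) - Real.cos (ang s) • hvec hκ (0, (c, false)))
      (Real.sin (ang s) • hvec hκ (0, (c, true))),
    Lp.coeFn_sub (hvec hκ ((s : ℤ), (c, false))) (Real.cos (ang s) • hvec hκ (0, (c, false))),
    Lp.coeFn_smul (Real.cos (ang s)) (hvec hκ (0, (c, false))),
    Lp.coeFn_smul (Real.sin (ang s)) (hvec hκ (0, (c, true)))] with y e1 e2 e3 e4 e5 e6 e7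
  rw [e4, Pi.sub_apply, e5, Pi.sub_apply, e6, e7, Pi.smul_apply, Pi.smul_apply]
  unfold hvec
  rw [e1, e2, e3]
  unfold vec amp phi
  by_cases hy : y.1 = c
  · have h2 : (if y.1 = c then (if false = true then I else 1) else (0 : ℂ)) = 1 := by simp [hy]
    have h3 : (if y.1 = c then (if true = true then I else 1) else (0 : ℂ)) = I := by simp [hy]
    simp only at h2 h3 ⊢
    rw [h2, h3]
    have h4 : ex (((s : ℤ) : ℝ) * (1 / 5 + Phi (dd κ y.1) y.2)) =
        ex (s / 5) * ex (s * Phi (dd κ c) y.2) := by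
      rw [← ex_add, hy]
      congr 1
      push_cast
      ring
    have h5 : ex (((0 : ℤ) : ℝ) * (1 / 5 + Phi (dd κ y.1) y.2)) = 1 := by simp [ex]
    rw [h4, h5]
    have h6 : ex ((s : ℝ) / 5) = Real.cos (ang s) + Real.sin (ang s) * I := by
      unfold ex ang
      rw [Complex.exp_mul_I, Complex.ofReal_cos, Complex.ofReal_sin]
    have h7 : 1 * (ex (s / 5) * ex (s * Phi (dd κ c) y.2)) - Real.cos (ang s) • (1 * 1 : ℂ) -
        Real.sin (ang s) • (I * 1) = ex (s / 5) * (ex (s * Phi (dd κ c) y.2) - 1) := by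
      rw [mul_sub, mul_one (ex _), h6, Complex.real_smul, Complex.real_smul]
      ring
    rw [h7, norm_mul, norm_ex, one_mul]
    exact h _
  · simp [hy, hD]

theorem cos_ang_le (s : ℕ) (hs : ¬ 5 ∣ s) : Real.cos (ang s) ≤ 0.31 := by
  obtain ⟨q, r, hr, rfl⟩ : ∃ q r, r < 5 ∧ s = 5 * q + r :=
    ⟨s / 5, s % 5, Nat.mod_lt _ (by norm_num), (Nat.div_add_mod s 5).symm⟩
  have h5 := Real.cos_pi_div_five
  have hsq : (Real.sqrt 5) ^ 2 = 5 := Real.sq_sqrt (by norm_num)
  have hs0 : 0 ≤ Real.sqrt 5 := Real.sqrt_nonneg 5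
  have hs1 : Real.sqrt 5 ≤ 2.24 := by
    rw [Real.sqrt_le_left (by norm_num)]
    norm_num
  have hang : ang (5 * q + r) = 2 * Real.pi * (r / 5) + q * (2 * Real.pi) := by
    unfold ang
    push_cast
    ring
  rw [hang, Real.cos_add_nat_mul_two_pi]
  have h25 : Real.cos (2 * (Real.pi / 5)) ≤ 0.31 := by
    rw [Real.cos_two_mul, h5]
    nlinarith
  interval_cases r
  · exact absurd (Dvd.intro q (by ring)) hs
  · have : 2 * Real.pi * (((1 : ℕ) : ℝ) / 5) = 2 * (Real.pi / 5) := by push_cast; ring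
    rw [this]; exact h25
  · have : 2 * Real.pi * (((2 : ℕ) : ℝ) / 5) = Real.pi - Real.pi / 5 := by push_cast; ring
    rw [this, Real.cos_pi_sub, h5]
    linarith
  · have : 2 * Real.pi * (((3 : ℕ) : ℝ) / 5) = Real.pi / 5 + Real.pi := by push_cast; ring
    rw [this, Real.cos_add_pi, h5]
    linarith
  · have : 2 * Real.pi * (((4 : ℕ) : ℝ) / 5) = 2 * Real.pi - 2 * (Real.pi / 5) := by
      push_cast; ring
    rw [this, Real.cos_two_pi_sub]
    exact h25

theorem not_five_dvd (n k : ℕ) : ¬ 5 ∣ 2 ^ n * 3 ^ k := by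
  intro h
  have h5 : Nat.Prime 5 := by norm_num
  rcases (Nat.Prime.dvd_mul h5).1 h with h | h
  · have := (Nat.Prime.dvd_of_dvd_pow h5 h)
    revert this; norm_num
  · have := (Nat.Prime.dvd_of_dvd_pow h5 h)
    revert this; norm_num

/-- The class attached to `2^n 3^k`. -/
noncomputable def cl {κ : ℕ} (hκ : 1 ≤ κ) (p : ℕ × ℕ) : Bool × Bool :=
  (class_error hκ p.1 p.2).choose

/-- The bad event of `2^n 3^k`. -/
def bad {κ : ℕ} (hκ : 1 ≤ κ) (p : ℕ × ℕ) : Set (TT → ℝ) :=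
  {x | 1 / 8 ≤ |lin (fn (2 ^ p.1 * 3 ^ p.2) (cl hκ p)) x|}

theorem measurableSet_bad {κ : ℕ} (hκ : 1 ≤ κ) (p : ℕ × ℕ) : MeasurableSet (bad hκ p) :=
  measurableSet_le measurable_const (measurable_lin _).abs

theorem measure_bad {κ : ℕ} (hκ : 1 ≤ κ) {μ : Measure (TT → ℝ)} [IsProbabilityMeasure μ]
    (hμ : IsGauss μ (hvec hκ)) (p : ℕ × ℕ) :
    μ (bad hκ p) ≤ ENNReal.ofReal
      (64 * (MM * (4 * Real.pi)) ^ 2 * (1 / 4) ^ κ * ((1 / 2) ^ p.1 * (1 / 2) ^ p.2)) := by
  have hpi := Real.pi_pos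
  have hM : 0 ≤ MM := by unfold MM; positivity
  refine (tail_lin hμ _ (by norm_num : (0 : ℝ) < 1 / 8)).trans (ENNReal.ofReal_le_ofReal ?_)
  have h1 := norm_fn hκ (2 ^ p.1 * 3 ^ p.2) (cl hκ p)
    (4 * Real.pi * ((1 / 2) ^ max p.1 p.2 * (1 / 2) ^ κ)) (by positivity)
    (class_error hκ p.1 p.2).choose_spec
  have h2 : ‖Finsupp.linearCombination ℝ (hvec hκ) (fn (2 ^ p.1 * 3 ^ p.2) (cl hκ p))‖ ^ 2 ≤
      (MM * (4 * Real.pi * ((1 / 2) ^ max p.1 p.2 * (1 / 2) ^ κ))) ^ 2 :=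
    pow_le_pow_left₀ (norm_nonneg _) h1 2
  have h3 : ((1 / 2 : ℝ) ^ max p.1 p.2) ^ 2 ≤ (1 / 2) ^ p.1 * (1 / 2) ^ p.2 := by
    rw [← pow_mul, ← pow_add]
    apply pow_le_pow_of_le_one (by norm_num) (by norm_num)
    have := le_max_left p.1 p.2
    have := le_max_right p.1 p.2
    omega
  have h4 : ((1 / 2 : ℝ) ^ κ) ^ 2 = (1 / 4) ^ κ := by
    rw [← pow_mul, mul_comm, pow_mul]
    norm_num
  have h5 : (MM * (4 * Real.pi * ((1 / 2) ^ max p.1 p.2 * (1 / 2) ^ κ))) ^ 2 ≤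
      (MM * (4 * Real.pi)) ^ 2 * (1 / 4) ^ κ * ((1 / 2) ^ p.1 * (1 / 2) ^ p.2) := by
    have : (MM * (4 * Real.pi * ((1 / 2) ^ max p.1 p.2 * (1 / 2) ^ κ))) ^ 2 =
        (MM * (4 * Real.pi)) ^ 2 * ((1 / 2 : ℝ) ^ κ) ^ 2 * ((1 / 2 : ℝ) ^ max p.1 p.2) ^ 2 := by
      ring
    rw [this, h4]
    exact mul_le_mul_of_nonneg_left h3 (by positivity)
  have h6 := h2.trans h5
  have h7 : ((1 : ℝ) / 8) ^ 2 = 1 / 64 := by norm_num
  rw [h7]
  have h8 : ∀ z : ℝ, z / (1 / 64) = 64 * z := fun z => by ring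
  rw [h8]
  linarith

theorem tsum_geo : ∑' p : ℕ × ℕ, ENNReal.ofReal ((1 / 2 : ℝ) ^ p.1 * (1 / 2) ^ p.2) = 4 := by
  have h1 : ∀ p : ℕ × ℕ, ENNReal.ofReal ((1 / 2 : ℝ) ^ p.1 * (1 / 2) ^ p.2) =
      (2⁻¹ : ENNReal) ^ p.1 * 2⁻¹ ^ p.2 := by
    intro p
    rw [ENNReal.ofReal_mul (by positivity), ENNReal.ofReal_pow (by norm_num),
      ENNReal.ofReal_pow (by norm_num)]
    have : ENNReal.ofReal (1 / 2) = 2⁻¹ := by
      rw [one_div, ENNReal.ofReal_inv_of_pos (by norm_num)]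
      norm_num
    rw [this]
  simp_rw [h1]
  rw [ENNReal.tsum_prod (f := fun a b => (2⁻¹ : ENNReal) ^ a * 2⁻¹ ^ b)]
  simp_rw [ENNReal.tsum_mul_left]
  rw [ENNReal.tsum_mul_right, ENNReal.tsum_geometric, ENNReal.one_sub_inv_two, inv_inv]
  norm_num

/-- **The non-recurrent set.** -/
theorem exists_good {κ : ℕ} (hκ : 1 ≤ κ) {μ : Measure (TT → ℝ)} [IsProbabilityMeasure μ]
    (hμ : IsGauss μ (hvec hκ))
    (hsmall : ENNReal.ofReal (64 * (MM * (4 * Real.pi)) ^ 2 * (1 / 4) ^ κ) * 4 < std box) :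
    ∃ A : Set (TT → ℝ), MeasurableSet A ∧ 0 < μ A ∧
      ∀ n k : ℕ, A ∩ (shift sig)^[2 ^ n * 3 ^ k] ⁻¹' A = ∅ := by
  set V : Set (TT → ℝ) := (fun x a => x (0, a)) ⁻¹' box with hV
  have hm : Measurable (fun (x : TT → ℝ) (a : (Bool × Bool) × Bool) => x (0, a)) := by fun_prop
  have hVm : MeasurableSet V := hm measurableSet_box
  set U : Set (TT → ℝ) := ⋃ p : ℕ × ℕ, bad hκ p with hU
  have hUm : MeasurableSet U := MeasurableSet.iUnion fun p => measurableSet_bad hκ p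
  refine ⟨V \ U, hVm.diff hUm, ?_, ?_⟩
  · have h1 : μ V = std box := by
      rw [← law_zero hκ hμ, Measure.map_apply hm measurableSet_box]
    have h2 : μ U ≤ ENNReal.ofReal (64 * (MM * (4 * Real.pi)) ^ 2 * (1 / 4) ^ κ) * 4 := by
      refine (measure_iUnion_le _).trans ?_
      refine (ENNReal.tsum_le_tsum fun p => measure_bad hκ hμ p).trans (le_of_eq ?_)
      have h3 : ∀ p : ℕ × ℕ, ENNReal.ofReal (64 * (MM * (4 * Real.pi)) ^ 2 * (1 / 4) ^ κ *
          ((1 / 2) ^ p.1 * (1 / 2) ^ p.2)) =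
          ENNReal.ofReal (64 * (MM * (4 * Real.pi)) ^ 2 * (1 / 4) ^ κ) *
          ENNReal.ofReal ((1 / 2) ^ p.1 * (1 / 2) ^ p.2) := fun p =>
        ENNReal.ofReal_mul (by positivity)
      simp_rw [h3]
      rw [ENNReal.tsum_mul_left, tsum_geo]
    rw [pos_iff_ne_zero]
    intro h0
    have h3 : μ V ≤ μ (V \ U) + μ U := by
      refine (measure_mono (?_ : V ⊆ (V \ U) ∪ U)).trans (measure_union_le _ _)
      intro x hx
      by_cases hxU : x ∈ U
      · exact Or.inr hxU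
      · exact Or.inl ⟨hx, hxU⟩
    rw [h0, zero_add, h1] at h3
    exact absurd hsmall (not_lt.2 (h3.trans h2))
  · intro n k
    rw [Set.eq_empty_iff_forall_notMem]
    rintro x ⟨⟨hx1, hx2⟩, hx3, _⟩
    set s := 2 ^ n * 3 ^ k with hs
    set c := cl hκ (n, k) with hc
    have hb : x ∉ bad hκ (n, k) := fun h => hx2 (Set.mem_iUnion.2 ⟨(n, k), h⟩)
    have hb' : |lin (fn s c) x| < 1 / 8 := not_le.1 hb
    rw [lin_fn] at hb'
    have a1 := hx1 (c, false) (Set.mem_univ _)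
    have a2 := hx1 (c, true) (Set.mem_univ _)
    have a3 := hx3 (c, false) (Set.mem_univ _)
    simp only [Bool.false_eq_true, if_false, if_true, Set.mem_Ioo] at a1 a2 a3
    rw [shift_iterate, sig_iterate] at a3
    simp only [zero_add] at a3
    have hcos := cos_ang_le s (not_five_dvd n k)
    have hcos1 := Real.neg_one_le_cos (ang s)
    have hsin1 := Real.sin_le_one (ang s)
    have hsin2 := Real.neg_one_le_sin (ang s)
    have b1 : Real.cos (ang s) * x (0, (c, false)) ≤ 0.31 * (9 / 8) := by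
      rcases le_total 0 (Real.cos (ang s)) with h | h
      · exact mul_le_mul hcos a1.2.le (by linarith [a1.1]) (by norm_num)
      · have : Real.cos (ang s) * x (0, (c, false)) ≤ 0 :=
          mul_nonpos_of_nonpos_of_nonneg h (by linarith [a1.1])
        linarith
    have b2 : Real.sin (ang s) * x (0, (c, true)) ≤ 1 / 8 := by
      have h1 : |Real.sin (ang s) * x (0, (c, true))| ≤ 1 * (1 / 8) := by
        rw [abs_mul]
        exact mul_le_mul (Real.abs_sin_le_one _) (abs_le.2 ⟨a2.1.le, a2.2.le⟩)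
          (abs_nonneg _) (by norm_num)
      have := (abs_le.1 h1).2
      linarith
    have b3 := (abs_lt.1 hb').2
    have b4 := a3.1
    linarith

theorem exists_kappa : ∃ κ : ℕ, 1 ≤ κ ∧
    ENNReal.ofReal (64 * (MM * (4 * Real.pi)) ^ 2 * (1 / 4) ^ κ) * 4 < std box := by
  have h1 : Tendsto (fun κ : ℕ => ENNReal.ofReal (64 * (MM * (4 * Real.pi)) ^ 2 * (1 / 4) ^ κ) * 4)
      atTop (𝓝 0) := by
    have h2 : Tendsto (fun κ : ℕ => 64 * (MM * (4 * Real.pi)) ^ 2 * (1 / 4 : ℝ) ^ κ)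
        atTop (𝓝 0) := by
      have := (tendsto_pow_atTop_nhds_zero_of_lt_one (r := (1 / 4 : ℝ)) (by norm_num)
        (by norm_num)).const_mul (64 * (MM * (4 * Real.pi)) ^ 2)
      simpa using this
    have h3 := (ENNReal.continuous_ofReal.tendsto 0).comp h2
    rw [ENNReal.ofReal_zero] at h3
    have h4 := ENNReal.Tendsto.mul_const (b := 4) h3 (Or.inr (by norm_num))
    rw [zero_mul] at h4
    exact h4
  obtain ⟨κ, hκ1, hκ2⟩ := ((eventually_ge_atTop 1).and
    ((tendsto_order.1 h1).2 _ box_pos)).exists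
  exact ⟨κ, hκ1, hκ2⟩

theorem main : ¬ (∀ (X : Type) [MeasurableSpace X] (μ : Measure X) [IsProbabilityMeasure μ]
      (e : X ≃ᵐ X),
      MeasurePreserving (⇑e) μ μ →
      (∀ A B : Set X, MeasurableSet A → MeasurableSet B →
        Tendsto (fun N : ℕ => (N : ℝ)⁻¹ *
          ∑ n ∈ Finset.range N,
            |μ.real ((⇑e)^[n] ⁻¹' A ∩ B) - μ.real A * μ.real B|)
          atTop (𝓝 0)) →
      ∀ A : Set X, MeasurableSet A → 0 < μ A →
        ∃ n k : ℕ, 1 ≤ n ∧ 1 ≤ k ∧ 0 < μ (A ∩ (⇑e)^[2 ^ n * 3 ^ k] ⁻¹' A)) := by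
  intro hall
  obtain ⟨κ, hκ, hsmall⟩ := exists_kappa
  obtain ⟨μ, hμp, hμ⟩ := exists_gaussian (hvec hκ)
  have hg : IsGauss μ (hvec hκ) := hμ
  obtain ⟨A, hA, hA0, hAe⟩ := exists_good hκ hg hsmall
  obtain ⟨n, k, _, _, hpos⟩ := hall (TT → ℝ) μ (shift sig)
    (measurePreserving_shift hg (hsig hκ))
    (fun A B hA hB => weak_mixing hg (hsig hκ) (hmix hκ) hA hB) A hA hA0
  rw [hAe n k, measure_empty] at hpos
  exact lt_irrefl _ hpos

end Pool.Agent.Lib.MP_f2c841_an
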