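import Pool.Agent.Lib.MP_f2c841_an.Dense
import Pool.Agent.Lib.MP_f2c841_an.Cesaro

/-!
# Weak mixing of Gaussian shifts
-/

open MeasureTheory ProbabilityTheory Filter Topology Complex

namespace Pool.Agent.Lib.MP_f2c841_an

variable {T : Type*} {H : Type*} [NormedAddCommGroup H] [InnerProductSpace ℝ H]

/-- `μ` is the Gaussian measure with Gram kernel `⟪h s, h t⟫`. -/
def IsGauss (μ : Measure (T → ℝ)) (h : T → H) : Prop :=
  ∀ a : T →₀ ℝ, ∫ x, chr a x ∂μ =
    cexp (-((‖Finsupp.linearCombination ℝ h a‖ ^ 2 : ℝ) : ℂ) / 2)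

/-- The shift along a bijection of the index set. -/
def shift (σ : T ≃ T) : (T → ℝ) ≃ᵐ (T → ℝ) where
  toFun x := fun t => x (σ t)
  invFun x := fun t => x (σ.symm t)
  left_inv x := by funext t; simp
  right_inv x := by funext t; simp
  measurable_toFun := by
    show Measurable (fun (x : T → ℝ) (t : T) => x (σ t))
    fun_prop
  measurable_invFun := by
    show Measurable (fun (x : T → ℝ) (t : T) => x (σ.symm t))
    fun_prop

theorem shift_apply (σ : T ≃ T) (x : T → ℝ) (t : T) : shift σ x t = x (σ t) := rfl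

theorem shift_iterate (σ : T ≃ T) (n : ℕ) (x : T → ℝ) (t : T) :
    (shift σ)^[n] x t = x (σ^[n] t) := by
  induction n generalizing x with
  | zero => rfl
  | succ n ih =>
    rw [Function.iterate_succ_apply, ih, Function.iterate_succ_apply', shift_apply]

theorem chr_shift (σ : T ≃ T) (n : ℕ) (a : T →₀ ℝ) (x : T → ℝ) :
    chr a ((shift σ)^[n] x) = chr (a.mapDomain σ^[n]) x := by
  have h1 : (shift σ)^[n] x = x ∘ σ^[n] := funext fun t => shift_iterate σ n x t
  unfold chr lin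
  rw [Finsupp.linearCombination_mapDomain, h1]

theorem inner_lc (h g : T → H) (a b : T →₀ ℝ) :
    inner ℝ (Finsupp.linearCombination ℝ h a) (Finsupp.linearCombination ℝ g b) =
      ∑ s ∈ a.support, ∑ t ∈ b.support, a s * b t * inner ℝ (h s) (g t) := by
  rw [Finsupp.linearCombination_apply, Finsupp.linearCombination_apply, Finsupp.sum, Finsupp.sum,
    sum_inner]
  refine Finset.sum_congr rfl fun s _ => ?_
  rw [inner_sum]
  refine Finset.sum_congr rfl fun t _ => ?_
  rw [inner_smul_left, inner_smul_right]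
  simp
  ring

theorem norm_lc_congr {h g : T → H} (hg : ∀ s t, inner ℝ (g s) (g t) = inner ℝ (h s) (h t))
    (a : T →₀ ℝ) : ‖Finsupp.linearCombination ℝ g a‖ = ‖Finsupp.linearCombination ℝ h a‖ := by
  have h1 : ‖Finsupp.linearCombination ℝ g a‖ ^ 2 = ‖Finsupp.linearCombination ℝ h a‖ ^ 2 := by
    rw [← real_inner_self_eq_norm_sq, ← real_inner_self_eq_norm_sq, inner_lc, inner_lc]
    simp_rw [hg]
  exact (sq_eq_sq₀ (norm_nonneg _) (norm_nonneg _)).1 h1

theorem inner_iterate {h : T → H} {σ : T ≃ T}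
    (hσ : ∀ s t, inner ℝ (h (σ s)) (h (σ t)) = inner ℝ (h s) (h t)) (n : ℕ) (s t : T) :
    inner ℝ (h (σ^[n] s)) (h (σ^[n] t)) = inner ℝ (h s) (h t) := by
  induction n with
  | zero => rfl
  | succ n ih => rw [Function.iterate_succ_apply', Function.iterate_succ_apply', hσ, ih]

theorem norm_lc_iterate {h : T → H} {σ : T ≃ T}
    (hσ : ∀ s t, inner ℝ (h (σ s)) (h (σ t)) = inner ℝ (h s) (h t)) (n : ℕ) (a : T →₀ ℝ) :
    ‖Finsupp.linearCombination ℝ h (a.mapDomain σ^[n])‖ = ‖Finsupp.linearCombination ℝ h a‖ := by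
  rw [Finsupp.linearCombination_mapDomain]
  exact norm_lc_congr (fun s t => inner_iterate hσ n s t) a

theorem measurePreserving_shift {μ : Measure (T → ℝ)} [IsProbabilityMeasure μ] {h : T → H}
    (hμ : IsGauss μ h) {σ : T ≃ T}
    (hσ : ∀ s t, inner ℝ (h (σ s)) (h (σ t)) = inner ℝ (h s) (h t)) :
    MeasurePreserving (shift σ) μ μ := by
  refine ⟨(shift σ).measurable, ?_⟩
  have : IsProbabilityMeasure (μ.map (shift σ)) :=
    Measure.isProbabilityMeasure_map (shift σ).measurable.aemeasurable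
  apply ext_of_chr
  intro a
  rw [integral_map (shift σ).measurable.aemeasurable (measurable_chr a).aestronglyMeasurable]
  have h1 : ∀ x, chr a (shift σ x) = chr (a.mapDomain σ^[1]) x := fun x => chr_shift σ 1 a x
  simp_rw [h1]
  rw [hμ, hμ, norm_lc_iterate hσ]

section Forms

variable {μ : Measure (T → ℝ)} [IsProbabilityMeasure μ]

/-- The correlation form. -/
noncomputable def corr (S : (T → ℝ) ≃ᵐ (T → ℝ)) (hS : MeasurePreserving S μ μ) (n : ℕ)
    (f g : Lp ℂ 2 μ) : ℂ :=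
  inner ℂ (Lp.compMeasurePreservingₗᵢ ℂ (S^[n]) (hS.iterate n) f) g -
    inner ℂ f (chrL μ 0) * inner ℂ (chrL μ 0) g

theorem norm_chrL_zero : ‖chrL μ (0 : T →₀ ℝ)‖ ≤ 1 := by
  unfold chrL
  rw [Lp.norm_toLp]
  have h1 : eLpNorm (chr (0 : T →₀ ℝ)) 2 μ ≤ 1 := by
    have := eLpNorm_le_of_ae_bound (μ := μ) (p := 2) (f := chr (0 : T →₀ ℝ)) (C := 1)
      (Eventually.of_forall fun x => (norm_chr 0 x).le)
    simpa using this
  exact ENNReal.toReal_le_of_le_ofReal zero_le_one (by simpa using h1)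

variable (S : (T → ℝ) ≃ᵐ (T → ℝ)) (hS : MeasurePreserving S μ μ)

theorem norm_corr_le (n : ℕ) (f g : Lp ℂ 2 μ) : ‖corr S hS n f g‖ ≤ 2 * ‖f‖ * ‖g‖ := by
  unfold corr
  refine (norm_sub_le _ _).trans ?_
  have h1 := norm_inner_le_norm (𝕜 := ℂ)
    (Lp.compMeasurePreservingₗᵢ ℂ (S^[n]) (hS.iterate n) f) g
  rw [LinearIsometry.norm_map] at h1
  have h2 := norm_inner_le_norm (𝕜 := ℂ) f (chrL μ 0)
  have h3 := norm_inner_le_norm (𝕜 := ℂ) (chrL μ 0) g
  have h4 := norm_chrL_zero (μ := μ)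
  have h5 : ‖inner ℂ f (chrL μ 0) * inner ℂ (chrL μ 0) g‖ ≤ ‖f‖ * ‖g‖ := by
    rw [norm_mul]
    refine mul_le_mul (h2.trans ?_) (h3.trans ?_) (norm_nonneg _) (norm_nonneg _)
    · exact mul_le_of_le_one_right (norm_nonneg _) h4
    · exact mul_le_of_le_one_left (norm_nonneg _) h4
  linarith

theorem corr_add_left (n : ℕ) (f f' g : Lp ℂ 2 μ) :
    corr S hS n (f + f') g = corr S hS n f g + corr S hS n f' g := by
  unfold corr
  rw [map_add, inner_add_left, inner_add_left]
  ring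

theorem corr_smul_left (n : ℕ) (c : ℂ) (f g : Lp ℂ 2 μ) :
    corr S hS n (c • f) g = (starRingEnd ℂ) c * corr S hS n f g := by
  unfold corr
  rw [map_smul, inner_smul_left, inner_smul_left]
  ring

theorem corr_add_right (n : ℕ) (f g g' : Lp ℂ 2 μ) :
    corr S hS n f (g + g') = corr S hS n f g + corr S hS n f g' := by
  unfold corr
  rw [inner_add_right, inner_add_right]
  ring

theorem corr_smul_right (n : ℕ) (c : ℂ) (f g : Lp ℂ 2 μ) :
    corr S hS n f (c • g) = c * corr S hS n f g := by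
  unfold corr
  rw [inner_smul_right, inner_smul_right]
  ring

theorem cesaro_corr (h : ∀ a b, CesaroZero fun n => ‖corr S hS n (chrL μ a) (chrL μ b)‖)
    (f g : Lp ℂ 2 μ) : CesaroZero fun n => ‖corr S hS n f g‖ := by
  have hd := dense_span_chr μ
  have step1 : ∀ b f, CesaroZero fun n => ‖corr S hS n f (chrL μ b)‖ := by
    intro b f
    refine cesaroZero_closure (fun n f => ‖corr S hS n f (chrL μ b)‖) (2 * ‖chrL μ b‖)
      (by positivity) (fun n f => norm_nonneg _) (fun n f f' => ?_) (fun n c f => ?_)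
      (fun n f => ?_) (Set.range (chrL μ)) ?_ f (by rw [hd]; trivial)
    · rw [corr_add_left]; exact norm_add_le _ _
    · rw [corr_smul_left, norm_mul, RCLike.norm_conj]
    · have := norm_corr_le S hS n f (chrL μ b)
      linarith
    · rintro _ ⟨a, rfl⟩
      exact h a b
  refine cesaroZero_closure (fun n g => ‖corr S hS n f g‖) (2 * ‖f‖)
    (by positivity) (fun n g => norm_nonneg _) (fun n g g' => ?_) (fun n c g => ?_)
    (fun n g => ?_) (Set.range (chrL μ)) ?_ g (by rw [hd]; trivial)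
  · rw [corr_add_right]; exact norm_add_le _ _
  · rw [corr_smul_right, norm_mul]
  · exact norm_corr_le S hS n f g
  · rintro _ ⟨b, rfl⟩
    exact step1 b f

theorem corr_indicator (n : ℕ) {A B : Set (T → ℝ)} (hA : MeasurableSet A)
    (hB : MeasurableSet B) :
    corr S hS n (indicatorConstLp 2 hA (measure_ne_top μ A) 1)
      (indicatorConstLp 2 hB (measure_ne_top μ B) 1) =
      ((μ.real (S^[n] ⁻¹' A ∩ B) - μ.real A * μ.real B : ℝ) : ℂ) := by
  have h1 : chrL μ (0 : T →₀ ℝ) = indicatorConstLp 2 MeasurableSet.univ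
      (measure_ne_top μ Set.univ) 1 := by
    unfold chrL
    rw [indicatorConstLp]
    congr 1
    funext x
    simp [chr, lin]
  unfold corr
  rw [h1, L2.inner_indicatorConstLp_one_indicatorConstLp_one,
    L2.inner_indicatorConstLp_one_indicatorConstLp_one]
  have h2 : Lp.compMeasurePreservingₗᵢ ℂ (S^[n]) (hS.iterate n)
      (indicatorConstLp 2 hA (measure_ne_top μ A) (1 : ℂ)) =
      indicatorConstLp 2 (hA.preimage (hS.iterate n).measurable)
        (measure_ne_top μ _) (1 : ℂ) :=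
    Lp.indicatorConstLp_compMeasurePreserving hA (measure_ne_top μ A) (1 : ℂ) (hS.iterate n)
  rw [h2, L2.inner_indicatorConstLp_one_indicatorConstLp_one]
  simp

end Forms

theorem abs_exp_sub_one_le' (c : ℝ) : |Real.exp c - 1| ≤ |c| * Real.exp |c| := by
  rcases le_total 0 c with h | h
  · have h1 := Real.add_one_le_exp (-c)
    have h2 : Real.exp c * (1 - c) ≤ 1 := by
      have h3 := mul_le_mul_of_nonneg_left h1 (Real.exp_pos c).le
      rw [← Real.exp_add] at h3
      simp only [add_neg_cancel, Real.exp_zero] at h3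
      linarith
    rw [abs_of_nonneg h, abs_of_nonneg (by linarith [Real.one_le_exp h])]
    linarith
  · have h1 := Real.add_one_le_exp c
    have h2 : Real.exp c ≤ 1 := Real.exp_le_one_iff.2 h
    have h3 : 1 ≤ Real.exp |c| := Real.one_le_exp (abs_nonneg c)
    rw [abs_of_nonpos (by linarith : Real.exp c - 1 ≤ 0)]
    have h4 : |c| = -c := abs_of_nonpos h
    have h5 : |c| * 1 ≤ |c| * Real.exp |c| := mul_le_mul_of_nonneg_left h3 (abs_nonneg c)
    linarith

variable {μ : Measure (T → ℝ)} [IsProbabilityMeasure μ] {h : T → H}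

theorem inner_chrL (hμ : IsGauss μ h) (a b : T →₀ ℝ) :
    inner ℂ (chrL μ a) (chrL μ b) =
      ((Real.exp (-‖Finsupp.linearCombination ℝ h (b - a)‖ ^ 2 / 2) : ℝ) : ℂ) := by
  rw [L2.inner_def]
  have h1 : ∫ x, inner ℂ (chrL μ a x) (chrL μ b x) ∂μ = ∫ x, chr (b - a) x ∂μ := by
    refine integral_congr_ae ?_
    filter_upwards [(memLp_chr μ a).coeFn_toLp, (memLp_chr μ b).coeFn_toLp] with x hx hy
    rw [chrL, chrL, hx, hy, RCLike.inner_apply, sub_eq_add_neg, chr_add, chr_neg]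
  rw [h1, hμ]
  push_cast
  rfl

theorem corr_chr (hμ : IsGauss μ h) {σ : T ≃ T}
    (hσ : ∀ s t, inner ℝ (h (σ s)) (h (σ t)) = inner ℝ (h s) (h t)) (n : ℕ) (a b : T →₀ ℝ) :
    ‖corr (shift σ) (measurePreserving_shift hμ hσ) n (chrL μ a) (chrL μ b)‖ ≤
      Real.exp (‖Finsupp.linearCombination ℝ h a‖ * ‖Finsupp.linearCombination ℝ h b‖) *
      |inner ℝ (Finsupp.linearCombination ℝ h (a.mapDomain σ^[n]))
        (Finsupp.linearCombination ℝ h b)| := by
  have hS := measurePreserving_shift hμ hσ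
  have h2 : Lp.compMeasurePreservingₗᵢ ℂ ((shift σ)^[n]) (hS.iterate n) (chrL μ a) =
      chrL μ (a.mapDomain σ^[n]) := by
    have h3 : Lp.compMeasurePreservingₗᵢ ℂ ((shift σ)^[n]) (hS.iterate n) (chrL μ a) =
        ((memLp_chr μ a).comp_measurePreserving (hS.iterate n)).toLp _ := rfl
    rw [h3]
    unfold chrL
    congr 1
    funext x
    exact chr_shift σ n a x
  unfold corr
  rw [h2, inner_chrL hμ, inner_chrL hμ, inner_chrL hμ, zero_sub, sub_zero, map_neg, norm_neg,
    map_sub]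
  set u := Finsupp.linearCombination ℝ h (a.mapDomain σ^[n]) with hu
  set w := Finsupp.linearCombination ℝ h b with hw
  have hun : ‖u‖ = ‖Finsupp.linearCombination ℝ h a‖ := norm_lc_iterate hσ n a
  rw [← hun]
  set c := inner ℝ u w with hc
  have e1 : ‖w - u‖ ^ 2 = ‖w‖ ^ 2 + ‖u‖ ^ 2 - 2 * c := by
    rw [norm_sub_sq_real, real_inner_comm]
    ring
  rw [← Complex.ofReal_mul, ← Complex.ofReal_sub, Complex.norm_real, Real.norm_eq_abs, e1]
  have e2 : Real.exp (-(‖w‖ ^ 2 + ‖u‖ ^ 2 - 2 * c) / 2) -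
      Real.exp (-‖u‖ ^ 2 / 2) * Real.exp (-‖w‖ ^ 2 / 2) =
      Real.exp (-‖u‖ ^ 2 / 2) * Real.exp (-‖w‖ ^ 2 / 2) * (Real.exp c - 1) := by
    rw [mul_sub, mul_one, ← Real.exp_add, ← Real.exp_add]
    congr 2
    ring
  rw [e2, abs_mul]
  have e3 : |Real.exp (-‖u‖ ^ 2 / 2) * Real.exp (-‖w‖ ^ 2 / 2)| ≤ 1 := by
    rw [← Real.exp_add, abs_of_pos (Real.exp_pos _), Real.exp_le_one_iff]
    nlinarith [sq_nonneg ‖u‖, sq_nonneg ‖w‖]
  have e4 := abs_exp_sub_one_le' c
  have e5 : |c| ≤ ‖u‖ * ‖w‖ := abs_real_inner_le_norm u w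
  calc |Real.exp (-‖u‖ ^ 2 / 2) * Real.exp (-‖w‖ ^ 2 / 2)| * |Real.exp c - 1|
      ≤ 1 * (|c| * Real.exp |c|) :=
        mul_le_mul e3 e4 (abs_nonneg _) zero_le_one
    _ ≤ 1 * (|c| * Real.exp (‖u‖ * ‖w‖)) := by
        gcongr
    _ = Real.exp (‖u‖ * ‖w‖) * |c| := by ring

/-- Weak mixing of the Gaussian shift. -/
theorem weak_mixing (hμ : IsGauss μ h) {σ : T ≃ T}
    (hσ : ∀ s t, inner ℝ (h (σ s)) (h (σ t)) = inner ℝ (h s) (h t))
    (hmix : ∀ s t, CesaroZero fun n => |inner ℝ (h (σ^[n] s)) (h t)|)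
    {A B : Set (T → ℝ)} (hA : MeasurableSet A) (hB : MeasurableSet B) :
    CesaroZero fun n => |μ.real ((shift σ)^[n] ⁻¹' A ∩ B) - μ.real A * μ.real B| := by
  have hS := measurePreserving_shift hμ hσ
  have key := cesaro_corr (shift σ) hS (fun a b => ?_)
    (indicatorConstLp 2 hA (measure_ne_top μ A) 1) (indicatorConstLp 2 hB (measure_ne_top μ B) 1)
  · refine key.mono (fun n => abs_nonneg _) fun n => ?_
    rw [corr_indicator, Complex.norm_real, Real.norm_eq_abs]
  · have h1 : CesaroZero fun n => ∑ s ∈ a.support, ∑ t ∈ b.support,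
        |a s * b t| * |inner ℝ (h (σ^[n] s)) (h t)| :=
      CesaroZero.sum _ fun s _ => CesaroZero.sum _ fun t _ => (hmix s t).const_mul _
    refine (h1.const_mul (Real.exp (‖Finsupp.linearCombination ℝ h a‖ *
      ‖Finsupp.linearCombination ℝ h b‖))).mono (fun n => norm_nonneg _) fun n => ?_
    refine (corr_chr hμ hσ n a b).trans ?_
    refine mul_le_mul_of_nonneg_left ?_ (Real.exp_pos _).le
    rw [Finsupp.linearCombination_mapDomain, inner_lc]
    refine (Finset.abs_sum_le_sum_abs _ _).trans (Finset.sum_le_sum fun s _ => ?_)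
    refine (Finset.abs_sum_le_sum_abs _ _).trans (Finset.sum_le_sum fun t _ => ?_)
    rw [abs_mul]
    rfl

end Pool.Agent.Lib.MP_f2c841_an
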