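import Pool.Agent.Lib.MP_f2c841_an.Wiener

/-!
# Random lacunary angles
-/

open MeasureTheory ProbabilityTheory Filter Topology Complex

namespace Pool.Agent.Lib.MP_f2c841_an

/-- The fair coin measure on `ℕ → Bool`. -/
noncomputable def coin : Measure (ℕ → Bool) :=
  Measure.infinitePi fun _ => bernoulliMeasure true false ⟨1 / 2, by norm_num, by norm_num⟩

instance : IsProbabilityMeasure coin := by unfold coin; infer_instance

theorem coin_subsingleton (s : Set (ℕ → Bool)) (hs : s.Subsingleton) : coin s = 0 := by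
  rcases hs.eq_empty_or_singleton with rfl | ⟨ξ, rfl⟩
  · simp
  · have h1 : ∀ n : ℕ, coin {ξ} ≤ (1 / 2) ^ n := by
      intro n
      have h2 : ({ξ} : Set (ℕ → Bool)) ⊆ Set.pi (Finset.range n : Set ℕ) (fun i => {ξ i}) := by
        rintro x rfl i _
        rfl
      refine (measure_mono h2).trans ?_
      unfold coin
      rw [Measure.infinitePi_pi _ (fun i _ => measurableSet_singleton _)]
      have h3 : ∀ i, bernoulliMeasure true false ⟨1 / 2, by norm_num, by norm_num⟩ {ξ i} =
          1 / 2 := by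
        intro i
        have h4 : unitInterval.toNNReal ⟨(1 / 2 : ℝ), by norm_num, by norm_num⟩ = 1 / 2 := by
          ext; simp
        have h5 : unitInterval.toNNReal (unitInterval.symm
            ⟨(1 / 2 : ℝ), by norm_num, by norm_num⟩) = 1 / 2 := by
          ext; simp [unitInterval.symm]; norm_num
        rcases Bool.eq_false_or_eq_true (ξ i) with h | h
        · rw [h, bernoulliMeasure_apply_of_mem_of_notMem _ (measurableSet_singleton _) (by simp)
            (by simp), h4]
          norm_num
        · rw [h, bernoulliMeasure_apply_of_notMem_of_mem _ (measurableSet_singleton _) (by simp)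
            (by simp), h5]
          norm_num
      rw [Finset.prod_congr rfl fun i _ => h3 i]
      simp
    have h2 : Tendsto (fun n : ℕ => (1 / 2 : ENNReal) ^ n) atTop (𝓝 0) :=
      ENNReal.tendsto_pow_atTop_nhds_zero_of_lt_one (by norm_num)
    exact le_antisymm (ge_of_tendsto' h2 h1) (zero_le)

/-- Rapidly decreasing sequences. -/
structure Rapid (d : ℕ → ℝ) : Prop where
  pos : ∀ j, 0 < d j
  dec : ∀ j, d (j + 1) ≤ d j / 3
  first : d 0 ≤ 1 / 3

namespace Rapid

variable {d : ℕ → ℝ} (hd : Rapid d)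
include hd

theorem le_pow (j i : ℕ) : d (j + i) ≤ d j * (1 / 3) ^ i := by
  induction i with
  | zero => simp
  | succ i ih =>
    have := hd.dec (j + i)
    rw [← add_assoc, pow_succ]
    linarith

theorem summable : Summable d := by
  refine Summable.of_nonneg_of_le (fun j => (hd.pos j).le) (fun j => ?_)
    ((summable_geometric_of_lt_one (r := (1 / 3 : ℝ)) (by norm_num) (by norm_num)).mul_left (d 0))
  have := hd.le_pow 0 j
  rwa [zero_add] at this

theorem tail (j : ℕ) : ∑' i, d (i + (j + 1)) ≤ d j / 2 := by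
  have h1 : ∀ i, d (i + (j + 1)) ≤ (d j / 3) * (1 / 3) ^ i := by
    intro i
    have h2 := hd.le_pow (j + 1) i
    rw [add_comm (j + 1) i] at h2
    have h3 : d (j + 1) * (1 / 3) ^ i ≤ (d j / 3) * (1 / 3) ^ i :=
      mul_le_mul_of_nonneg_right (hd.dec j) (by positivity)
    exact h2.trans h3
  have h2 : Summable fun i : ℕ => (d j / 3) * (1 / 3 : ℝ) ^ i :=
    (summable_geometric_of_lt_one (by norm_num) (by norm_num)).mul_left _
  refine ((summable_nat_add_iff (j + 1)).2 hd.summable |>.tsum_le_tsum h1 h2).trans ?_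
  rw [tsum_mul_left, tsum_geometric_of_lt_one (by norm_num) (by norm_num)]
  linarith

theorem total : ∑' i, d i ≤ 1 / 2 := by
  rw [hd.summable.tsum_eq_zero_add]
  have := hd.tail 0
  have := hd.first
  linarith

end Rapid

/-- The `j`-th term. -/
noncomputable def bit (d : ℕ → ℝ) (ξ : ℕ → Bool) (j : ℕ) : ℝ := if ξ j = true then d j else 0

/-- The random angle. -/
noncomputable def Phi (d : ℕ → ℝ) (ξ : ℕ → Bool) : ℝ := ∑' j, bit d ξ j

section

variable {d : ℕ → ℝ} (hd : Rapid d)
include hd

theorem bit_nonneg (ξ : ℕ → Bool) (j : ℕ) : 0 ≤ bit d ξ j := by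
  unfold bit; split_ifs
  · exact (hd.pos j).le
  · exact le_rfl

theorem bit_le (ξ : ℕ → Bool) (j : ℕ) : bit d ξ j ≤ d j := by
  unfold bit; split_ifs
  · exact le_rfl
  · exact (hd.pos j).le

theorem summable_bit (ξ : ℕ → Bool) : Summable (bit d ξ) :=
  Summable.of_nonneg_of_le (bit_nonneg hd ξ) (bit_le hd ξ) hd.summable

theorem measurable_Phi : Measurable (Phi d) := by
  have : Continuous (Phi d) := by
    refine continuous_tsum (fun j => ?_) hd.summable (fun j ξ => ?_)
    · have h1 : (fun ξ : ℕ → Bool => bit d ξ j) = (fun b : Bool => if b = true then d j else 0) ∘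
          fun ξ : ℕ → Bool => ξ j := rfl
      rw [h1]
      exact continuous_of_discreteTopology.comp (continuous_apply j)
    · rw [Real.norm_eq_abs, abs_of_nonneg (bit_nonneg hd ξ j)]
      exact bit_le hd ξ j
  exact this.measurable

theorem Phi_mem (ξ : ℕ → Bool) : 0 ≤ Phi d ξ ∧ Phi d ξ ≤ 1 / 2 :=
  ⟨tsum_nonneg (bit_nonneg hd ξ),
    ((summable_bit hd ξ).tsum_le_tsum (bit_le hd ξ) hd.summable).trans hd.total⟩

theorem Phi_injective : Function.Injective (Phi d) := by
  intro ξ η h
  by_contra hne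
  obtain ⟨i, hi⟩ := Function.ne_iff.1 hne
  classical
  have hex : ∃ i, ξ i ≠ η i := ⟨i, hi⟩
  set j := Nat.find hex with hj
  have hj1 : ξ j ≠ η j := Nat.find_spec hex
  have hj2 : ∀ i < j, ξ i = η i := fun i hi => by
    by_contra hcon
    exact Nat.find_min hex hi hcon
  -- the difference
  have hs : Summable fun i => bit d ξ i - bit d η i := (summable_bit hd ξ).sub (summable_bit hd η)
  have h1 : ∑' i, (bit d ξ i - bit d η i) = 0 := by
    rw [(summable_bit hd ξ).tsum_sub (summable_bit hd η)]
    exact sub_eq_zero.2 h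
  have h2 := hs.sum_add_tsum_nat_add (j + 1)
  rw [h1, Finset.sum_range_succ, Finset.sum_eq_zero, zero_add] at h2
  · have h3 : |bit d ξ j - bit d η j| = d j := by
      unfold bit
      rcases Bool.eq_false_or_eq_true (ξ j) with hx | hx <;>
      rcases Bool.eq_false_or_eq_true (η j) with hy | hy
      · exact absurd (hx.trans hy.symm) hj1
      · simp [hx, hy, (hd.pos j).le]
      · simp [hx, hy, (hd.pos j).le]
      · exact absurd (hx.trans hy.symm) hj1
    have hst : Summable fun i => d (i + (j + 1)) := (summable_nat_add_iff (j + 1)).2 hd.summable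
    have h4 : |∑' i, (bit d ξ (i + (j + 1)) - bit d η (i + (j + 1)))| ≤ d j / 2 := by
      refine le_trans ?_ (hd.tail j)
      rw [← Real.norm_eq_abs]
      refine tsum_of_norm_bounded hst.hasSum fun i => ?_
      rw [Real.norm_eq_abs, abs_le]
      have a1 := bit_nonneg hd ξ (i + (j + 1))
      have a2 := bit_nonneg hd η (i + (j + 1))
      have a3 := bit_le hd ξ (i + (j + 1))
      have a4 := bit_le hd η (i + (j + 1))
      constructor <;> linarith
    have h5 : |bit d ξ j - bit d η j| ≤ d j / 2 := by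
      have h6 : bit d ξ j - bit d η j =
          -∑' i, (bit d ξ (i + (j + 1)) - bit d η (i + (j + 1))) := by linarith
      rw [h6, abs_neg]
      exact h4
    have := hd.pos j
    linarith
  · intro i hi
    have := hj2 i (Finset.mem_range.1 hi)
    simp [bit, this]

theorem Phi_subsingleton (x : ℝ) : {ξ : ℕ → Bool | ∃ k : ℤ, x - Phi d ξ = k}.Subsingleton := by
  rintro ξ ⟨k, hk⟩ η ⟨l, hl⟩
  apply Phi_injective hd
  have h1 := Phi_mem hd ξ
  have h2 := Phi_mem hd η
  have h3 : ((l - k : ℤ) : ℝ) = Phi d ξ - Phi d η := by push_cast; linarith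
  have h4 : |((l - k : ℤ) : ℝ)| < 1 := by
    rw [h3, abs_lt]
    constructor <;> linarith [h1.1, h1.2, h2.1, h2.2]
  have h5 : l - k = 0 := by
    have : |l - k| < 1 := by exact_mod_cast h4
    exact Int.abs_lt_one_iff.1 this
  rw [h5] at h3
  simp only [Int.cast_zero] at h3
  linarith

theorem ex_Phi (s : ℝ) (w : ℕ → ℝ) (hw : Summable w) (hsw : ∀ j, ‖ex (s * d j) - 1‖ ≤ w j)
    (ξ : ℕ → Bool) : ‖ex (s * Phi d ξ) - 1‖ ≤ ∑' j, w j := by
  have hw0 : ∀ j, 0 ≤ w j := fun j => (norm_nonneg _).trans (hsw j)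
  have h1 : ∀ N, ‖ex (s * ∑ j ∈ Finset.range N, bit d ξ j) - 1‖ ≤ ∑ j ∈ Finset.range N, w j := by
    intro N
    induction N with
    | zero => simp [ex]
    | succ N ih =>
      rw [Finset.sum_range_succ, Finset.sum_range_succ, mul_add, ex_add]
      have h2 : ex (s * ∑ j ∈ Finset.range N, bit d ξ j) * ex (s * bit d ξ N) - 1 =
          ex (s * ∑ j ∈ Finset.range N, bit d ξ j) * (ex (s * bit d ξ N) - 1) +
          (ex (s * ∑ j ∈ Finset.range N, bit d ξ j) - 1) := by ring
      rw [h2]
      refine (norm_add_le _ _).trans ?_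
      rw [norm_mul, norm_ex, one_mul]
      have h3 : ‖ex (s * bit d ξ N) - 1‖ ≤ w N := by
        unfold bit
        split_ifs
        · exact hsw N
        · simp [ex, hw0 N]
      linarith
  have h2 : Tendsto (fun N => ‖ex (s * ∑ j ∈ Finset.range N, bit d ξ j) - 1‖) atTop
      (𝓝 ‖ex (s * Phi d ξ) - 1‖) := by
    have h3 := (summable_bit hd ξ).hasSum.tendsto_sum_nat
    have h4 : Continuous fun r : ℝ => ‖ex (s * r) - 1‖ := by
      have := continuous_ex
      fun_prop
    exact (h4.tendsto _).comp h3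
  refine le_of_tendsto' h2 fun N => (h1 N).trans ?_
  exact hw.sum_le_tsum _ fun j _ => hw0 j

end

end Pool.Agent.Lib.MP_f2c841_an
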