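import Pool.Agent.Lib.MP_f2c841_an.Classes
import Pool.Agent.Lib.MP_f2c841_an.Mix

/-!
# The spectral data
-/

open MeasureTheory ProbabilityTheory Filter Topology Complex

namespace Pool.Agent.Lib.MP_f2c841_an

/-- The spectral space. -/
abbrev YY : Type := (Bool × Bool) × (ℕ → Bool)

/-- The spectral measure. -/
noncomputable def nu : Measure YY := Measure.count.prod coin

instance : IsFiniteMeasure nu := by unfold nu; infer_instance

/-- The angle. -/
noncomputable def phi (κ : ℕ) (y : YY) : ℝ := 1 / 5 + Phi (dd κ y.1) y.2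

theorem measurable_of_sections {β : Type*} [MeasurableSpace β] {f : YY → β}
    (hf : ∀ c, Measurable fun ξ => f (c, ξ)) : Measurable f := by
  have h1 : Measurable (f ∘ Prod.swap) :=
    measurable_from_prod_countable_left (f := f ∘ Prod.swap) fun c => hf c
  exact h1.comp measurable_swap

theorem measurable_phi {κ : ℕ} (hκ : 1 ≤ κ) : Measurable (phi κ) :=
  measurable_of_sections fun c => (measurable_Phi (rapid_dd hκ c)).const_add _

theorem hdiag {κ : ℕ} (hκ : 1 ≤ κ) :
    (nu.prod nu) {p | ∃ k : ℤ, phi κ p.1 - phi κ p.2 = k} = 0 := by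
  have hm := measurable_phi hκ
  have hset : ∀ f : YY → ℝ, Measurable f → MeasurableSet {y | ∃ k : ℤ, f y = k} := by
    intro f hf
    have : {y | ∃ k : ℤ, f y = k} = ⋃ k : ℤ, f ⁻¹' {(k : ℝ)} := by
      ext y; simp
    rw [this]
    exact MeasurableSet.iUnion fun k => hf (measurableSet_singleton _)
  have hset2 : MeasurableSet {p : YY × YY | ∃ k : ℤ, phi κ p.1 - phi κ p.2 = k} := by
    have : {p : YY × YY | ∃ k : ℤ, phi κ p.1 - phi κ p.2 = k} =
        ⋃ k : ℤ, (fun p : YY × YY => phi κ p.1 - phi κ p.2) ⁻¹' {(k : ℝ)} := by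
      ext y; simp
    rw [this]
    exact MeasurableSet.iUnion fun k =>
      ((hm.comp measurable_fst).sub (hm.comp measurable_snd)) (measurableSet_singleton _)
  rw [Measure.measure_prod_null hset2]
  refine Eventually.of_forall fun x => ?_
  show nu {y | ∃ k : ℤ, phi κ x - phi κ y = k} = 0
  unfold nu
  rw [Measure.measure_prod_null (hset _ (hm.const_sub _))]
  refine Eventually.of_forall fun c => ?_
  have h2 : Prod.mk c ⁻¹' {y : YY | ∃ k : ℤ, phi κ x - phi κ y = k} =
      {ξ | ∃ k : ℤ, (phi κ x - 1 / 5) - Phi (dd κ c) ξ = k} := by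
    ext ξ
    simp only [Set.mem_preimage, Set.mem_ofPred_eq, phi]
    refine exists_congr fun k => ?_
    rw [sub_sub]
  show coin (Prod.mk c ⁻¹' {y : YY | ∃ k : ℤ, phi κ x - phi κ y = k}) = 0
  rw [h2]
  exact coin_subsingleton _ (Phi_subsingleton (rapid_dd hκ c) _)

/-- The index set. -/
abbrev TT : Type := ℤ × ((Bool × Bool) × Bool)

/-- The amplitudes. -/
noncomputable def amp (a : (Bool × Bool) × Bool) (y : YY) : ℂ :=
  if y.1 = a.1 then (if a.2 = true then I else 1) else 0

theorem measurable_amp (a : (Bool × Bool) × Bool) : Measurable (amp a) :=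
  measurable_of_sections fun c => by
    have h : (fun ξ : ℕ → Bool => amp a (c, ξ)) =
        fun _ => if c = a.1 then (if a.2 = true then I else 1) else 0 := rfl
    rw [h]
    exact measurable_const

theorem norm_amp_le (a : (Bool × Bool) × Bool) (y : YY) : ‖amp a y‖ ≤ 1 := by
  unfold amp
  split_ifs <;> simp

/-- The vectors, as functions. -/
noncomputable def vec (κ : ℕ) (t : TT) (y : YY) : ℂ := amp t.2 y * ex (t.1 * phi κ y)

theorem measurable_vec {κ : ℕ} (hκ : 1 ≤ κ) (t : TT) : Measurable (vec κ t) :=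
  (measurable_amp _).mul (measurable_ex.comp ((measurable_phi hκ).const_mul _))

theorem norm_vec_le (κ : ℕ) (t : TT) (y : YY) : ‖vec κ t y‖ ≤ 1 := by
  unfold vec
  rw [norm_mul, norm_ex, mul_one]
  exact norm_amp_le _ _

theorem memLp_vec {κ : ℕ} (hκ : 1 ≤ κ) (t : TT) : MemLp (vec κ t) 2 nu :=
  MemLp.of_bound (measurable_vec hκ t).aestronglyMeasurable 1
    (Eventually.of_forall fun x => norm_vec_le κ t x)

/-- The vectors. -/
noncomputable def hvec {κ : ℕ} (hκ : 1 ≤ κ) (t : TT) : Lp ℂ 2 nu := (memLp_vec hκ t).toLp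

theorem inner_hvec {κ : ℕ} (hκ : 1 ≤ κ) (s t : TT) :
    inner ℝ (hvec hκ s) (hvec hκ t) =
      ∫ y, (amp s.2 y * (starRingEnd ℂ) (amp t.2 y) *
        ex (((s.1 - t.1 : ℤ) : ℝ) * phi κ y)).re ∂nu := by
  rw [L2.inner_def]
  refine integral_congr_ae ?_
  filter_upwards [(memLp_vec hκ s).coeFn_toLp, (memLp_vec hκ t).coeFn_toLp] with y h1 h2
  rw [hvec, hvec, h1, h2, Complex.inner, vec, vec, map_mul, ← ex_neg]
  have h3 : ((s.1 - t.1 : ℤ) : ℝ) * phi κ y = s.1 * phi κ y + -(t.1 * phi κ y) := by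
    push_cast; ring
  rw [h3, ex_add]
  have h4 : ∀ z : ℂ, z.re = ((starRingEnd ℂ) z).re := fun z => by simp
  rw [h4]
  congr 1
  simp only [map_mul, ← ex_neg, Complex.conj_conj]
  ring_nf

/-- The shift of the index set. -/
def sig : TT ≃ TT := (Equiv.addRight (1 : ℤ)).prodCongr (Equiv.refl _)

theorem sig_iterate (n : ℕ) (t : TT) : sig^[n] t = (t.1 + n, t.2) := by
  induction n with
  | zero => simp
  | succ n ih =>
    rw [Function.iterate_succ_apply', ih]
    simp [sig]
    ring

theorem hsig {κ : ℕ} (hκ : 1 ≤ κ) (s t : TT) :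
    inner ℝ (hvec hκ (sig s)) (hvec hκ (sig t)) = inner ℝ (hvec hκ s) (hvec hκ t) := by
  rw [inner_hvec, inner_hvec]
  simp [sig]

theorem hmix {κ : ℕ} (hκ : 1 ≤ κ) (s t : TT) :
    CesaroZero fun n => |inner ℝ (hvec hκ (sig^[n] s)) (hvec hκ t)| := by
  have h1 := wiener nu (phi κ) (measurable_phi hκ)
    (fun y => amp s.2 y * (starRingEnd ℂ) (amp t.2 y) * ex (((s.1 - t.1 : ℤ) : ℝ) * phi κ y))
    (((measurable_amp _).mul (Complex.continuous_conj.measurable.comp (measurable_amp _))).mul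
      (measurable_ex.comp ((measurable_phi hκ).const_mul _))) 1
    (fun y => by
      rw [norm_mul, norm_mul, norm_ex, mul_one, RCLike.norm_conj]
      exact mul_le_one₀ (norm_amp_le _ _) (norm_nonneg _) (norm_amp_le _ _)) (hdiag hκ)
  refine h1.mono (fun n => abs_nonneg _) fun n => ?_
  rw [inner_hvec, sig_iterate]
  have h2 : ∀ y, (amp s.2 y * (starRingEnd ℂ) (amp t.2 y) *
      ex (((s.1 + n - t.1 : ℤ) : ℝ) * phi κ y)).re =
      RCLike.re (amp s.2 y * (starRingEnd ℂ) (amp t.2 y) *
        ex (((s.1 - t.1 : ℤ) : ℝ) * phi κ y) * ex (n * phi κ y)) := by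
    intro y
    rw [mul_assoc _ (ex _) (ex _), ← ex_add]
    have : ((s.1 + n - t.1 : ℤ) : ℝ) * phi κ y =
        ((s.1 - t.1 : ℤ) : ℝ) * phi κ y + n * phi κ y := by push_cast; ring
    rw [this]
    rfl
  simp_rw [h2]
  rw [integral_re]
  · exact RCLike.abs_re_le_norm _
  · refine Integrable.of_bound (C := 1) ?_ (Eventually.of_forall fun y => ?_)
    · exact ((((measurable_amp _).mul
        (Complex.continuous_conj.measurable.comp (measurable_amp _))).mul
        (measurable_ex.comp ((measurable_phi hκ).const_mul _))).mul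
        (measurable_ex.comp ((measurable_phi hκ).const_mul _))).aestronglyMeasurable
    · rw [norm_mul, norm_mul, norm_mul, norm_ex, norm_ex, mul_one, mul_one, RCLike.norm_conj]
      exact mul_le_one₀ (norm_amp_le _ _) (norm_nonneg _) (norm_amp_le _ _)

theorem inner_hvec_zero {κ : ℕ} (hκ : 1 ≤ κ) (a b : (Bool × Bool) × Bool) :
    inner ℝ (hvec hκ (0, a)) (hvec hκ (0, b)) = if a = b then 1 else 0 := by
  rw [inner_hvec]
  have h1 : ∀ y : YY, (amp a y * (starRingEnd ℂ) (amp b y) *
      ex (((0 - 0 : ℤ) : ℝ) * phi κ y)).re =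
      if a = b then ({y : YY | y.1 = a.1}).indicator 1 y else 0 := by
    intro y
    have h2 : ex (((0 - 0 : ℤ) : ℝ) * phi κ y) = 1 := by simp [ex]
    rw [h2, mul_one]
    obtain ⟨a1, a2⟩ := a
    obtain ⟨b1, b2⟩ := b
    unfold amp
    simp only [Prod.mk.injEq, Set.indicator, Set.mem_ofPred_eq, Pi.one_apply]
    by_cases h3 : y.1 = a1
    · by_cases h4 : y.1 = b1
      · have h5 : a1 = b1 := h3.symm.trans h4
        rcases Bool.eq_false_or_eq_true a2 with h6 | h6 <;>
        rcases Bool.eq_false_or_eq_true b2 with h7 | h7 <;>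
        simp [h3, h5, h6, h7]
      · have h5 : a1 ≠ b1 := fun h => h4 (h3.trans h)
        simp [h4, h5]
    · simp [h3]
  simp only at h1 ⊢
  simp_rw [h1]
  split_ifs with hab
  · have hms : MeasurableSet {y : YY | y.1 = a.1} :=
      measurable_fst (measurableSet_singleton a.1)
    rw [integral_indicator_one hms]
    have h2 : {y : YY | y.1 = a.1} = {a.1} ×ˢ Set.univ := by
      ext y; simp
    rw [h2]
    unfold nu
    rw [Measure.real, Measure.prod_prod]
    simp
  · simp

end Pool.Agent.Lib.MP_f2c841_an
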