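import Pool.Agent.Lib.MP_f2c841_an.Cesaro

/-!
# A Wiener lemma
-/

open MeasureTheory Filter Topology Complex

namespace Pool.Agent.Lib.MP_f2c841_an

/-- `ex r = exp (2 π i r)`. -/
noncomputable def ex (r : ℝ) : ℂ := cexp (((2 * Real.pi * r : ℝ) : ℂ) * I)

theorem norm_ex (r : ℝ) : ‖ex r‖ = 1 := Complex.norm_exp_ofReal_mul_I _

theorem ex_add (r s : ℝ) : ex (r + s) = ex r * ex s := by
  unfold ex
  rw [← Complex.exp_add]
  push_cast
  ring_nf

theorem ex_neg (r : ℝ) : ex (-r) = (starRingEnd ℂ) (ex r) := by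
  unfold ex
  rw [← Complex.exp_conj, map_mul, Complex.conj_ofReal, Complex.conj_I]
  congr 1
  push_cast
  ring

theorem ex_nat_mul (n : ℕ) (r : ℝ) : ex (n * r) = ex r ^ n := by
  unfold ex
  rw [← Complex.exp_nat_mul]
  push_cast
  ring_nf

theorem ex_eq_one_iff (r : ℝ) : ex r = 1 ↔ ∃ k : ℤ, r = k := by
  unfold ex
  rw [Complex.exp_eq_one_iff]
  constructor
  · rintro ⟨k, hk⟩
    refine ⟨k, ?_⟩
    have h1 : ((2 * Real.pi * r : ℝ) : ℂ) = ((k * (2 * Real.pi) : ℝ) : ℂ) := by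
      have h2 : ((2 * Real.pi * r : ℝ) : ℂ) * I = ((k * (2 * Real.pi) : ℝ) : ℂ) * I := by
        rw [hk]; push_cast; ring
      exact mul_right_cancel₀ I_ne_zero h2
    have h3 := Complex.ofReal_injective h1
    have hpi := Real.pi_pos
    nlinarith
  · rintro ⟨k, rfl⟩
    exact ⟨k, by push_cast; ring⟩

theorem continuous_ex : Continuous ex := by
  unfold ex
  fun_prop

theorem measurable_ex : Measurable ex := continuous_ex.measurable

theorem norm_ex_sub_one_le (r : ℝ) : ‖ex r - 1‖ ≤ 2 * Real.pi * |r| := by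
  unfold ex
  have := Real.norm_exp_I_mul_ofReal_sub_one_le (x := 2 * Real.pi * r)
  rw [mul_comm]
  refine this.trans (le_of_eq ?_)
  rw [Real.norm_eq_abs, abs_mul, abs_of_pos (by positivity : (0 : ℝ) < 2 * Real.pi)]

theorem geom_tendsto (r : ℝ) (hr : ¬ ∃ k : ℤ, r = k) :
    Tendsto (fun N : ℕ => (N : ℂ)⁻¹ * ∑ n ∈ Finset.range N, ex (n * r)) atTop (𝓝 0) := by
  have hne : ex r ≠ 1 := fun h => hr ((ex_eq_one_iff r).1 h)
  have hne' : ex r - 1 ≠ 0 := sub_ne_zero.2 hne
  rw [tendsto_zero_iff_norm_tendsto_zero]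
  have hlim : Tendsto (fun N : ℕ => (N : ℝ)⁻¹ * (2 / ‖ex r - 1‖)) atTop (𝓝 0) := by
    have := (tendsto_inv_atTop_nhds_zero_nat (𝕜 := ℝ)).mul_const (2 / ‖ex r - 1‖)
    simpa using this
  refine squeeze_zero (fun N => norm_nonneg _) (fun N => ?_) hlim
  rw [norm_mul, norm_inv, Complex.norm_natCast]
  refine mul_le_mul_of_nonneg_left ?_ (by positivity)
  simp_rw [ex_nat_mul]
  rw [geom_sum_eq hne, norm_div]
  refine div_le_div_of_nonneg_right ?_ (norm_nonneg _)
  refine (norm_sub_le _ _).trans ?_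
  rw [norm_pow, norm_ex, one_pow, norm_one]
  norm_num

theorem cesaro_of_sq {c : ℕ → ℝ} (h0 : ∀ n, 0 ≤ c n) (h : CesaroZero fun n => c n ^ 2) :
    CesaroZero c := by
  have h1 : Tendsto (fun N : ℕ => √((N : ℝ)⁻¹ * ∑ n ∈ Finset.range N, c n ^ 2)) atTop (𝓝 0) := by
    have := (Real.continuous_sqrt.tendsto 0).comp h
    rw [Real.sqrt_zero] at this
    exact this
  refine squeeze_zero (fun N => ?_) (fun N => ?_) h1
  · exact mul_nonneg (by positivity) (Finset.sum_nonneg fun n _ => h0 n)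
  · apply Real.le_sqrt_of_sq_le
    rw [mul_pow]
    have h2 := sq_sum_le_card_mul_sum_sq (s := Finset.range N) (f := c)
    rw [Finset.card_range] at h2
    rcases Nat.eq_zero_or_pos N with hN | hN
    · subst hN; simp
    · have hN' : (0 : ℝ) < N := by exact_mod_cast hN
      calc ((N : ℝ)⁻¹) ^ 2 * (∑ n ∈ Finset.range N, c n) ^ 2
          ≤ ((N : ℝ)⁻¹) ^ 2 * (N * ∑ n ∈ Finset.range N, c n ^ 2) :=
            mul_le_mul_of_nonneg_left h2 (by positivity)
        _ = (N : ℝ)⁻¹ * ∑ n ∈ Finset.range N, c n ^ 2 := by field_simp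

variable {Y : Type*} [MeasurableSpace Y] (ν : Measure Y) [IsFiniteMeasure ν]

theorem wiener (φ : Y → ℝ) (hφ : Measurable φ) (F : Y → ℂ) (hF : Measurable F) (C : ℝ)
    (hC : ∀ y, ‖F y‖ ≤ C)
    (hdiag : (ν.prod ν) {p | ∃ k : ℤ, φ p.1 - φ p.2 = k} = 0) :
    CesaroZero fun n : ℕ => ‖∫ y, F y * ex (n * φ y) ∂ν‖ := by
  have hC0 : 0 ≤ C ∨ IsEmpty Y := by
    rcases isEmpty_or_nonempty Y with h | ⟨⟨y⟩⟩
    · exact Or.inr h
    · exact Or.inl ((norm_nonneg _).trans (hC y))
  apply cesaro_of_sq (fun n => norm_nonneg _)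
  -- the double integral
  have hm : ∀ n : ℕ, Measurable fun y => F y * ex (n * φ y) := fun n =>
    hF.mul (measurable_ex.comp (hφ.const_mul _))
  have hG : ∀ n : ℕ, ((‖∫ y, F y * ex (n * φ y) ∂ν‖ ^ 2 : ℝ) : ℂ) =
      ∫ p, (F p.1 * (starRingEnd ℂ) (F p.2)) * ex (n * (φ p.1 - φ p.2)) ∂(ν.prod ν) := by
    intro n
    have h1 : ∀ p : Y × Y, (F p.1 * (starRingEnd ℂ) (F p.2)) * ex (n * (φ p.1 - φ p.2)) =
        (F p.1 * ex (n * φ p.1)) * (starRingEnd ℂ) (F p.2 * ex (n * φ p.2)) := by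
      intro p
      rw [map_mul, ← ex_neg, show (n : ℝ) * (φ p.1 - φ p.2) = n * φ p.1 + -(n * φ p.2) by ring,
        ex_add]
      ring
    simp_rw [h1]
    rw [integral_prod_mul (f := fun y => F y * ex (n * φ y))
      (g := fun y => (starRingEnd ℂ) (F y * ex (n * φ y))), integral_conj,
      Complex.mul_conj, Complex.normSq_eq_norm_sq]
  have hint : ∀ n : ℕ, Integrable (fun p : Y × Y =>
      (F p.1 * (starRingEnd ℂ) (F p.2)) * ex (n * (φ p.1 - φ p.2))) (ν.prod ν) := by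
    intro n
    refine Integrable.of_bound (C := C * C) ?_ (Eventually.of_forall fun p => ?_)
    · refine Measurable.aestronglyMeasurable ?_
      refine ((hF.comp measurable_fst).mul
        (Complex.continuous_conj.measurable.comp (hF.comp measurable_snd))).mul ?_
      exact measurable_ex.comp (((hφ.comp measurable_fst).sub (hφ.comp measurable_snd)).const_mul _)
    · rw [norm_mul, norm_mul, norm_ex, mul_one, RCLike.norm_conj]
      exact mul_le_mul (hC _) (hC _) (norm_nonneg _) ((norm_nonneg _).trans (hC p.1))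
  have hmean : ∀ N : ℕ, (((N : ℝ)⁻¹ * ∑ n ∈ Finset.range N,
      ‖∫ y, F y * ex (n * φ y) ∂ν‖ ^ 2 : ℝ) : ℂ) =
      ∫ p, (F p.1 * (starRingEnd ℂ) (F p.2)) *
        ((N : ℂ)⁻¹ * ∑ n ∈ Finset.range N, ex (n * (φ p.1 - φ p.2))) ∂(ν.prod ν) := by
    intro N
    rw [Complex.ofReal_mul, Complex.ofReal_sum]
    simp_rw [hG]
    rw [← integral_finsetSum _ fun n _ => hint n, Complex.ofReal_inv, Complex.ofReal_natCast,
      ← integral_const_mul]
    refine integral_congr_ae (Eventually.of_forall fun p => ?_)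
    simp only
    rw [Finset.mul_sum, Finset.mul_sum, Finset.mul_sum]
    refine Finset.sum_congr rfl fun n _ => ?_
    ring
  have hlim : Tendsto (fun N : ℕ => ∫ p, (F p.1 * (starRingEnd ℂ) (F p.2)) *
        ((N : ℂ)⁻¹ * ∑ n ∈ Finset.range N, ex (n * (φ p.1 - φ p.2))) ∂(ν.prod ν)) atTop
      (𝓝 (∫ _, (0 : ℂ) ∂(ν.prod ν))) := by
    refine tendsto_integral_of_dominated_convergence (fun _ => C * C) (fun N => ?_)
      (integrable_const _) (fun N => Eventually.of_forall fun p => ?_) ?_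
    · refine Measurable.aestronglyMeasurable ?_
      refine ((hF.comp measurable_fst).mul
        (Complex.continuous_conj.measurable.comp (hF.comp measurable_snd))).mul
        (Measurable.const_mul (Finset.measurable_sum _ fun n _ => ?_) _)
      exact measurable_ex.comp (((hφ.comp measurable_fst).sub (hφ.comp measurable_snd)).const_mul _)
    · have hCp : 0 ≤ C := (norm_nonneg _).trans (hC p.1)
      rw [norm_mul, norm_mul, RCLike.norm_conj]
      have h1 : ‖(N : ℂ)⁻¹ * ∑ n ∈ Finset.range N, ex (n * (φ p.1 - φ p.2))‖ ≤ 1 := by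
        rw [norm_mul, norm_inv, Complex.norm_natCast]
        rcases Nat.eq_zero_or_pos N with hN | hN
        · subst hN; simp
        · have hN' : (0 : ℝ) < N := by exact_mod_cast hN
          rw [inv_mul_le_iff₀ hN', mul_one]
          refine (norm_sum_le _ _).trans ?_
          simp [norm_ex]
      calc ‖F p.1‖ * ‖F p.2‖ * ‖(N : ℂ)⁻¹ * ∑ n ∈ Finset.range N, ex (n * (φ p.1 - φ p.2))‖
          ≤ (C * C) * 1 := by
            refine mul_le_mul (mul_le_mul (hC _) (hC _) (norm_nonneg _) hCp) h1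
              (norm_nonneg _) (by positivity)
        _ = C * C := mul_one _
    · have hae : ∀ᵐ p ∂(ν.prod ν), ¬ ∃ k : ℤ, φ p.1 - φ p.2 = k := by
        rw [ae_iff]
        simpa using hdiag
      filter_upwards [hae] with p hp
      have := (geom_tendsto _ hp).const_mul (F p.1 * (starRingEnd ℂ) (F p.2))
      simpa using this
  rw [integral_zero] at hlim
  unfold CesaroZero
  have h2 : Tendsto (fun N : ℕ => (((N : ℝ)⁻¹ * ∑ n ∈ Finset.range N,
      ‖∫ y, F y * ex (n * φ y) ∂ν‖ ^ 2 : ℝ) : ℂ)) atTop (𝓝 0) := by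
    simp_rw [hmean]
    exact hlim
  have h3 := (Complex.continuous_re.tendsto _).comp h2
  rw [Complex.zero_re] at h3
  exact h3

end Pool.Agent.Lib.MP_f2c841_an
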